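import Pool.Agent.P8H58.DL.W3

/-!
# The central character of the block above a linear character, with values in `F`
-/

set_option autoImplicit false
set_option linter.unusedSectionVars false

open scoped BigOperators Classical

noncomputable section

namespace Pool.Agent.P8H58.DL

open Pool.Agent.Y63.AWC (IsIrreducibleCharacter)
open Pool.Agent.Y63.NV (centralValue redC IsClassFun)
open Pool.Agent.Y930.NV (om om_int ind Cf Cf_ind Cf_expand R centralValue_eq redC_of redC_sum
  redC_mul om_sum ind_cast irr_Cf)
open Pool.Agent.H254R3.IN (IsIrr Om)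
open Pool.Agent.P8H58.FR (st ix cz Om_ix ix_irr)

open SemidirectProduct (inl inr rightHom)

section lz

variable {F : Type} [Field F] (red : integralClosure ℤ ℂ →+* F) {J : Type} [Group J] [Fintype J]

theorem om_ind_int {χ : J → ℂ} (h : IsIrreducibleCharacter χ) (C : ConjClasses J) :
    IsIntegral ℤ (om χ (ind ℂ C)) := by
  rw [← ind_cast]
  exact om_int h (Cf_ind ℤ C)

/-- the value at a class function with integral values -/
theorem cv_red {χ : J → ℂ} (h : IsIrreducibleCharacter χ) {f : J → ℂ} (hf : Cf f)
    (hi : ∀ x, IsIntegral ℤ (f x)) :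
    centralValue red χ (fun x => redC red (f x)) = redC red (om χ f) := by
  rw [centralValue_eq red h]
  have h1 : f = fun g => ∑ C : ConjClasses J, f C.out * (ind ℂ C) g := by
    funext g
    exact (Cf_expand hf g).trans
      (Finset.sum_congr (Finset.ext fun _ => by simp only [Finset.mem_univ]) fun _ _ => rfl)
  have h2 : om χ f = ∑ C : ConjClasses J, f C.out * om χ (ind ℂ C) := by
    conv_lhs => rw [h1]
    exact om_sum χ Finset.univ (fun C : ConjClasses J => f C.out) (fun C => ind ℂ C)
  rw [h2, redC_sum red _ _ fun C _ => (hi _).mul (om_ind_int h C)]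
  refine Finset.sum_congr (Finset.ext fun _ => by simp only [Finset.mem_univ]) fun C _ => ?_
  rw [redC_mul red (hi _) (om_ind_int h C)]
  unfold R
  rw [ind_cast]

theorem cv_lin {χ : J → ℂ} (h : IsIrreducibleCharacter χ) {ι : Type} (s : Finset ι) (a : ι → F)
    (f : ι → J → F) : centralValue red χ (fun x => ∑ i ∈ s, a i * f i x) =
      ∑ i ∈ s, a i * centralValue red χ (f i) := by
  simp only [centralValue_eq red h, Finset.sum_mul, Finset.mul_sum]
  rw [Finset.sum_comm]
  refine Finset.sum_congr rfl fun i _ => Finset.sum_congr rfl fun C _ => by ring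

end lz

section cv

variable {V H : Type} [CommGroup V] [Group H] [Fintype V] [Fintype H] {φ : H →* MulAut V}
  {F : Type} [Field F] (red : integralClosure ℤ ℂ →+* F)

theorem lam_int (lam : V →* ℂˣ) (v : V) : IsIntegral ℤ (lam v : ℂ) := by
  have h1 : (lam v : ℂ) ^ Fintype.card V = 1 := by
    rw [← Units.val_pow_eq_pow_val, ← map_pow, pow_card_eq_one, map_one, Units.val_one]
  exact ⟨Polynomial.X ^ Fintype.card V - 1, Polynomial.monic_X_pow_sub_C 1 Fintype.card_ne_zero, by
    simp [h1]⟩

/-- the reduction of a linear character -/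
def rl (lam : V →* ℂˣ) : V →* F where
  toFun v := redC red (lam v : ℂ)
  map_one' := by
    rw [map_one, Units.val_one]
    exact Pool.Agent.Y930.NV.redC_one red
  map_mul' v w := by
    rw [map_mul, Units.val_mul, redC_mul red (lam_int lam v) (lam_int lam w)]

theorem rl_apply (lam : V →* ℂˣ) (v : V) : rl red lam v = redC red (lam v : ℂ) := rfl

/-- **the central character of the induced character** -/
theorem cv_ix {lam : V →* ℂˣ} {ψ : st φ lam → ℂ} (hψ : IsIrr ψ) {f : V ⋊[φ] H → F}
    (hf : IsClassFun f) : centralValue red (ix lam ψ) f =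
      centralValue red ψ (cl (rl red lam) (st φ lam) f) := by
  have hi : IsIrr (ix lam ψ) := ix_irr hψ
  rw [centralValue_eq red (show IsIrreducibleCharacter (ix lam ψ) from hi)]
  -- the functions on the stabiliser
  let h : ConjClasses (V ⋊[φ] H) → st φ lam → ℂ := fun C s => cz lam (ind ℂ C) (s : H)
  have hint : ∀ C s, IsIntegral ℤ (h C s) := by
    intro C s
    refine IsIntegral.sum _ fun v _ => (lam_int lam v).mul ?_
    unfold ind
    split_ifs
    · exact isIntegral_one
    · exact isIntegral_zero
  have hcl : ∀ C, Cf (h C) := by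
    intro C g x
    change cz lam (ind ℂ C) ((g * x * g⁻¹ : st φ lam) : H) = cz lam (ind ℂ C) (x : H)
    have h1 : Pool.Agent.H254R3.IN.IsCl (ind ℂ C : V ⋊[φ] H → ℂ) := fun a b => by
      have := Cf_ind ℂ C b a
      exact this
    rw [Subgroup.coe_mul, Subgroup.coe_mul, Subgroup.coe_inv,
      ← Pool.Agent.P8H58.FR.cz_tr lam (g : H) h1, Pool.Agent.P8H58.FR.tr_st.mpr g.2]
  have h1 : ∀ C : ConjClasses (V ⋊[φ] H), R red (ix lam ψ) (ind ℤ C) =
      centralValue red ψ (fun s => redC red (h C s)) := by
    intro C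
    rw [cv_red red (show IsIrreducibleCharacter ψ from hψ) (hcl C) (hint C)]
    unfold R
    rw [ind_cast]
    congr 1
    have h2 : Pool.Agent.H254R3.IN.IsCl (ind ℂ C : V ⋊[φ] H → ℂ) := fun a b => by
      have := Cf_ind ℂ C b a
      exact this
    exact Om_ix lam hψ.one_ne h2
  rw [Finset.sum_congr rfl fun C _ => by rw [h1 C],
    ← cv_lin red (show IsIrreducibleCharacter ψ from hψ)]
  congr 1
  funext s
  unfold cl
  rw [finsum_eq_sum_of_fintype]
  have h2 : ∀ C : ConjClasses (V ⋊[φ] H), redC red (h C s) =
      ∑ v : V, rl red lam v * ind F C (⟨v, (s : H)⟩ : V ⋊[φ] H) := by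
    intro C
    change redC red (∑ v, (lam v : ℂ) * ind ℂ C (⟨v, (s : H)⟩ : V ⋊[φ] H)) = _
    have hI : ∀ x : V ⋊[φ] H, IsIntegral ℤ (ind ℂ C x) := by
      intro x
      unfold ind
      split_ifs
      · exact isIntegral_one
      · exact isIntegral_zero
    rw [redC_sum red _ _ fun v _ => (lam_int lam v).mul (hI _)]
    refine Finset.sum_congr rfl fun v _ => ?_
    rw [redC_mul red (lam_int lam v) (hI _), rl_apply]
    congr 1
    unfold ind
    split_ifs
    · exact Pool.Agent.Y930.NV.redC_one red
    · exact Pool.Agent.Y930.NV.redC_zero red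
  rw [Finset.sum_congr rfl fun C _ => by rw [h2 C]]
  simp only [Finset.mul_sum]
  rw [Finset.sum_comm]
  refine Finset.sum_congr rfl fun v _ => ?_
  have h3 := Cf_expand (f := f) (fun g x => hf g x) (⟨v, (s : H)⟩ : V ⋊[φ] H)
  rw [h3, Finset.mul_sum]
  exact Finset.sum_congr rfl fun C _ => by ring

end cv

end Pool.Agent.P8H58.DL
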