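import Pool.Agent.P8H58.Lgk
import Pool.Agent.P8H58.DL.Cv

/-!
# The embedding of a group as the stabiliser of a linear character
-/

set_option autoImplicit false
set_option linter.unusedSectionVars false

open scoped BigOperators Classical

noncomputable section

namespace Pool.Agent.P8H58.DL

open Pool.Agent.Y63.KR Pool.Agent.Q90.WR Pool.Agent.H254R3.IN Pool.Agent.Q259.BW
open Pool.Agent.Helper884 Pool.Agent.N19.RB Polynomial
open Pool.Agent.P8H58 Pool.Agent.P8H58.FR

variable {p : ℕ} [hp : Fact p.Prime]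

/-- **the embedding** -/
theorem exists_emb {X : ∀ (G : Type) [Group G], Prop} (hX : Ecl X)
    {S : Type} [Group S] [Finite S] [IsSimpleGroup S] {s t : S} (hst : s * t ≠ t * s) (hS : X S)
    {G : Type} [Group G] [Fintype G] (hG : X G) :
    ∃ (V H : Type) (_ : CommGroup V) (_ : Group H) (_ : Fintype V) (_ : Fintype H)
      (φ : H →* MulAut V) (lam : V →* ℂˣ) (_ : st φ lam ≃* G), X (V ⋊[φ] H) ∧
      TopS S (V ⋊[φ] H) ∧ ¬ p ∣ Nat.card V ∧
      Nat.card G < Nat.card (V ⋊[φ] H) ∧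
      (∀ P : Subgroup (V ⋊[φ] H), P.Normal → IsPGroup p P → P = ⊥) := by
  haveI : Fintype S := Fintype.ofFinite S
  obtain ⟨q, hq, hqp, hqS⟩ := exists_q p S hst
  haveI := Fact.mk hq
  obtain ⟨χ, a, ha⟩ := exists_chi q
  have hYc : Nat.card (Multiplicative (ZMod q)) = q := by
    rw [Nat.card_congr Multiplicative.toAdd, Nat.card_zmod]
  have hYX : X (Multiplicative (ZMod q)) := by
    obtain ⟨u, hu⟩ := exists_prime_orderOf_dvd_card' q hqS
    have h1 : X (Subgroup.zpowers u) := hX.sub S hS _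
    refine hX.iso _ _ h1 ⟨mulEquivOfPrimeCardEq (p := q) ?_ hYc⟩
    rw [Nat.card_zpowers, hu]
  have ha1 : a ≠ 1 := by
    rintro rfl
    exact ha (map_one _)
  have hs1 : s ≠ 1 := by rintro rfl; exact hst (by simp)
  have ht1 : t ≠ 1 := by rintro rfl; exact hst (by simp)
  have hst1 : s ≠ t := by rintro rfl; exact hst rfl
  have hS1 : 1 < Fintype.card S := Fintype.one_lt_card_iff.2 ⟨s, 1, hs1⟩
  -- the group with few quotients
  set k := 2 * Nat.card G with hk
  let H : Type := Fin (k + 1) → S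
  have hH : 2 * Nat.card G < Nat.card H := by
    have h1 : Nat.card H = Fintype.card S ^ (k + 1) := by
      rw [Nat.card_eq_fintype_card, Fintype.card_fun, Fintype.card_fin]
    rw [h1]
    have h2 := Nat.lt_pow_self hS1 (n := k + 1)
    omega
  have hx : (fun _ : Fin (k + 1) => s) ≠ 1 := fun h0 => hs1 (congrFun h0 0)
  have hy : (fun _ : Fin (k + 1) => t) ≠ 1 := fun h0 => ht1 (congrFun h0 0)
  have hxy : (fun _ : Fin (k + 1) => s) ≠ (fun _ => t) := fun h0 => hst1 (congrFun h0 0)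
  let Γ₀ : Type := Gam H G Unit
  haveI : Fintype Γ₀ := Fintype.ofFinite _
  have hT₀ : TopS S Γ₀ := topS_Gam hx hy hxy
  have hXU : X Unit := hX.emb (1 : Unit →* S) (fun _ _ _ => Subsingleton.elim _ _) hS
  have hX₀ : X Γ₀ := hX.Gam (hX.fin hS _) hG hXU
  obtain ⟨T, _, hT⟩ := Finset.exists_subset_card_eq (s := (Finset.univ : Finset H))
    (n := Nat.card G) (by
      rw [Finset.card_univ, ← Nat.card_eq_fintype_card]
      omega)
  obtain ⟨w, hw⟩ : T.Nonempty := by
    rw [← Finset.card_pos, hT]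
    exact Nat.card_pos
  let ι : G →* Γ₀ := eT T hT
  have hι : Function.Injective ι := eT_inj hT hw
  have hcG : Nat.card ι.range = Nat.card G :=
    (Nat.card_congr (MonoidHom.ofInjective hι).toEquiv).symm
  have hc₀ : 2 * Nat.card ι.range < Nat.card Γ₀ := by
    rw [hcG]
    exact hH.trans_le (Nat.card_le_card_of_injective _ (tp_inj (H := H) (G := G)))
  -- the semidirect product
  let Y : Type := Multiplicative (ZMod q)
  haveI : Fintype (V Γ₀ Y) := Fintype.ofFinite _
  let lam : V Γ₀ Y →* ℂˣ := lm ι.range χ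
  have hlam : st (sh Γ₀ Y) lam = ι.range := st_lm hc₀ ha
  let e : st (sh Γ₀ Y) lam ≃* G :=
    (MulEquiv.subgroupCongr hlam).trans (MonoidHom.ofInjective hι).symm
  have hV : ¬ p ∣ Nat.card (V Γ₀ Y) := by
    intro h
    have h1 : Nat.card (V Γ₀ Y) ∣ Nat.card (Γ₀ → Y) := Subgroup.card_subgroup_dvd_card _
    rw [Nat.card_fun, hYc] at h1
    exact hqp ((Nat.prime_dvd_prime_iff_eq hp.out hq).1 (hp.out.dvd_of_dvd_pow (h.trans h1))).symm
  haveI : Finite (V Γ₀ Y ⋊[sh Γ₀ Y] Γ₀) := inferInstance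
  refine ⟨V Γ₀ Y, Γ₀, inferInstance, inferInstance, inferInstance, inferInstance, sh Γ₀ Y, lam, e,
    hX.sd _ (hX.sub _ (hX.pi hYX Γ₀) _) hX₀, ?_, hV, ?_, ?_⟩
  · refine hT₀.sd (x := ⟨tp (fun _ => s), tp_mem _⟩) (y := ⟨tp (fun _ => t), tp_mem _⟩) ?_ ?_ ?_
    · intro h
      exact hx (tp_inj (H := H) (G := G) (h.trans (Subtype.ext (map_one SemidirectProduct.inr)).symm))
    · intro h
      exact hy (tp_inj (H := H) (G := G) (h.trans (Subtype.ext (map_one SemidirectProduct.inr)).symm))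
    · intro h
      exact hxy (tp_inj (H := H) (G := G) h)
  · rw [SemidirectProduct.card, ← hcG]
    have h1 : 0 < Nat.card (V Γ₀ Y) := Nat.card_pos
    calc Nat.card ι.range < Nat.card Γ₀ := by omega
      _ ≤ Nat.card (V Γ₀ Y) * Nat.card Γ₀ := Nat.le_mul_of_pos_left _ h1
  · intro P hP hPp
    refine core_sd (p := p) ?_ (x := ⟨tp (fun _ => s), tp_mem _⟩) (y := ⟨tp (fun _ => t), tp_mem _⟩)
      ?_ ?_ ?_ ha1 P hP hPp
    · rw [hYc]
      exact (Nat.coprime_primes hp.out hq).2 fun h => hqp h.symm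
    · intro h
      exact hx (tp_inj (H := H) (G := G) (h.trans (Subtype.ext (map_one SemidirectProduct.inr)).symm))
    · intro h
      exact hy (tp_inj (H := H) (G := G) (h.trans (Subtype.ext (map_one SemidirectProduct.inr)).symm))
    · intro h
      exact hxy (tp_inj (H := H) (G := G) h)

end Pool.Agent.P8H58.DL
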