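import Pool.Agent.P8H58.DL.Mod
import Pool.Agent.P8H58.AW.Fin
import Pool.Agent.P8H21.DL.Ca
import Pool.Agent.P8H21.DL.Cd
import Pool.Agent.P8H21.DL.Wsm
import Pool.Agent.P8H41.DL.Cb
import Pool.Agent.P8H54.DL.Cc
import Pool.Agent.P8H54.DL.Ce
import Pool.Agent.P8H54.DL.Cf
import Pool.Agent.P8H52.DL.Dl
import Pool.Agent.P8H76.DL.Inj
import Pool.Agent.P8H62.DL.Lpr
import Pool.Agent.P8H62.DL.Wrl
import Pool.Agent.P8H62.DL.Wrw
import Pool.Agent.P8H88.DL.Sum
import Pool.Agent.P8H84.DL.Wpr

/-!
# Project DL: the weight conjecture is a congruence modulo a prime for groups with few quotients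

Parts of the proof: `Pool/Agent/P8H21/DL` (helper21), `P8H41/DL` (helper41), `P8H54/DL` (helper54),
`P8H52/DL` (helper52), `P8H76/DL` (helper76), `P8H62/DL` (helper62), `P8H88/DL` (helper88),
`P8H84/DL` (helper84), `P8H58/DL` (helper58).
-/

set_option autoImplicit false
set_option linter.unusedSectionVars false

open scoped Classical

noncomputable section

namespace Pool.Agent.P8H58.DL

open Pool.Agent.Y63.NV Pool.Agent.N85.WM
open Pool.Agent.P8H58.FR (Ecl TopS)

/-- `G` is a finite group in `X` without nontrivial normal `p`-subgroups all of whose nontrivial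
quotients contain `S` -/
def TG (p : ℕ) (X : ∀ (G : Type) [Group G], Prop) (S : Type) [Group S] (G : Type) [Group G] :
    Prop :=
  X G ∧ Finite G ∧ (∀ P : Subgroup G, P.Normal → IsPGroup p P → P = ⊥) ∧ TopS S G

section fin

variable {p : ℕ} [hp : Fact p.Prime] {F : Type} [Field F] [IsAlgClosed F] [CharP F p]
  (red : integralClosure ℤ ℂ →+* F) {X : ∀ (G : Type) [Group G], Prop}
  {S : Type} [Group S] [Finite S] [IsSimpleGroup S]

/-- every block has the numbers of a block of an arbitrarily large group with few quotients -/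
theorem large (hX : Ecl X) {s t : S} (hst : s * t ≠ t * s) (hS : X S) (n : ℕ) {G : Type} [Group G]
    [Finite G] (hG : X G) {B : (G → F) → F} (hB : IsBlock B) :
    ∃ (Γ : Type) (_ : Group Γ) (B' : (Γ → F) → F), TG p X S Γ ∧ n < Nat.card Γ ∧
      IsBlock B' ∧ numIrrBlock B' = numIrrBlock B ∧ numWts p red B' = numWts p red B := by
  obtain ⟨Γ, i, B', h1, h2, h3, h4, h5, h6, h7, h8⟩ :=
    transfer_large red Pool.Agent.P8H21.DL.ca Pool.Agent.P8H41.DL.cb Pool.Agent.P8H54.DL.cc
      Pool.Agent.P8H21.DL.cd Pool.Agent.P8H54.DL.ce Pool.Agent.P8H54.DL.cf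
      Pool.Agent.P8H76.DL.inj Pool.Agent.P8H21.DL.Wsm.wsm Pool.Agent.P8H52.DL.dic
      Pool.Agent.P8H52.DL.iso hX hst hS n hG hB
  exact ⟨Γ, i, B', ⟨h1, h2, h4, h3⟩, h5, h6, h7, h8⟩

/-- wreath products in `X` -/
theorem wr_mem (hX : Ecl X) {r : ℕ} [Fact r.Prime] (hr : X (Multiplicative (ZMod r)))
    (G : Type) [Group G] [Finite G] (hG : X G) : X (Wr r G) :=
  hX.sd _ (hX.pi hG (ZMod r)) hr

/-- the weight conjecture and a congruence for the groups with few quotients -/
theorem cong_iff (hX : Ecl X) {s t : S} (hst : s * t ≠ t * s) (hS : X S) (r : ℕ) [Fact r.Prime]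
    (hr : X (Multiplicative (ZMod r))) (n : ℕ) :
    (∀ (G : Type) [Group G] [Finite G], X G → BAWC p red G) ↔
    ∀ (G : Type) [Group G], TG p X S G → n < Nat.card G → ∀ B : (G → F) → F, IsBlock B →
      numIrrBlock B ≡ numWts p red B [MOD r] := by
  constructor
  · intro h G _ hG _ B hB
    have := hG.2.1
    have h1 : numIrrBlock B = numWts p red B := h G hG.1 B hB
    rw [h1]
  · intro h
    have key : ∀ (G : Type) [Group G] [Finite G], X G → ∀ B : (G → F) → F, IsBlock B →
        numIrrBlock B ≡ numWts p red B [MOD r] := by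
      intro G _ _ hG B hB
      obtain ⟨Γ, i, B', h1, h2, h3, h4, h5⟩ := large red hX hst hS n hG hB
      have h6 := h Γ h1 h2 B' h3
      rw [h4, h5] at h6
      exact h6
    by_cases hrp : r = p
    · subst hrp
      exact (bawc_cong r F red X fun H _ _ hH => wr_mem hX hr H hH).1.2 key
    · intro G _ _ hG
      exact of_mod_r red Pool.Agent.P8H62.DL.Lpr.lpr Pool.Agent.P8H62.DL.Wrl.wrl
        Pool.Agent.P8H84.DL.wpr Pool.Agent.P8H62.DL.Wrw.wrw Pool.Agent.P8H88.DL.sumb
        Pool.Agent.P8H88.DL.sumc r hrp (fun H _ _ hH => wr_mem hX hr H hH) key G hG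

/-- the groups with a normal subgroup in the class of index a power of `p` -/
theorem awc_top (hX : Closed p X) :
    (∀ (Γ : Type) [Group Γ] [Finite Γ] (G : Subgroup Γ) [G.Normal], X G → IsPGroup p (Γ ⧸ G) →
      BAWC p red Γ) ↔ ∀ (G : Type) [Group G] [Finite G], X G → BAWC p red G := by
  constructor
  · intro h H _ _ hH
    exact h H ⊤ (hX.iso _ _ hH ⟨Subgroup.topEquiv.symm⟩) (pgroup_top p H)
  · intro h
    exact (bawc_strong red X hX).1 fun H _ _ hH _ => h H hH

/-- the congruence for triples -/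
theorem trip_iff (hX : Ecl X) {s t : S} (hst : s * t ≠ t * s) (hS : X S)
    (hr : X (Multiplicative (ZMod p))) (n : ℕ) :
    (∀ (G : Type) [Group G] [Finite G], X G → BAWC p red G) ↔
    ∀ (G : Type) [Group G], TG p X S G → n < Nat.card G → ∀ g : G,
      regTrip p g ≡ ∑ᶠ Q : {Q : Subgroup G // IsPGroup p Q}, tripNum p Q.1 g / Nat.card Q.1
        [MOD p ^ ((Nat.card G).factorization p + 1)] := by
  rw [cong_iff red hX hst hS p hr n]
  constructor
  · intro h G _ hG hn g
    have := hG.2.1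
    exact (com_iff p g).mp ((free_iff lt' dzq' p F red G).mp (h G hG hn) g)
  · intro h G _ hG hn
    have := hG.2.1
    exact (free_iff lt' dzq' p F red G).mpr fun g => (com_iff p g).mpr (h G hG hn g)

end fin

end Pool.Agent.P8H58.DL
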