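import Pool.Agent.P8H58.DL.Fin
import Pool.Agent.P8H58.DL.Emb2

/-!
# Project DL: the weight conjecture is a congruence modulo a prime for split extensions of
self-centralising elementary abelian groups

Parts of the proof: `Pool/Agent/P8H21/DL` (helper21), `P8H41/DL` (helper41), `P8H54/DL` (helper54),
`P8H52/DL` (helper52), `P8H76/DL` (helper76), `P8H62/DL` (helper62), `P8H88/DL` (helper88),
`P8H84/DL` (helper84), `P8H58/DL` (helper58).
-/

set_option autoImplicit false
set_option linter.unusedSectionVars false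

open scoped Classical

noncomputable section

namespace Pool.Agent.P8H58.DL

open Pool.Agent.Y63.NV Pool.Agent.N85.WM
open Pool.Agent.P8H58.FR (Ecl TopS)

section fin2

variable {p : ℕ} [hp : Fact p.Prime] {F : Type} [Field F] [IsAlgClosed F] [CharP F p]
  (red : integralClosure ℤ ℂ →+* F) {X : ∀ (G : Type) [Group G], Prop}
  {S : Type} [Group S] [Finite S] [IsSimpleGroup S]

/-- every block has the numbers of a block of an arbitrarily large group with few quotients -/
theorem large2 (hX : Ecl X) {s t : S} (hst : s * t ≠ t * s) (hS : X S)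
    {q : ℕ} (hq : q.Prime) (hqp : q ≠ p) (hqS : q ∣ Nat.card S) (n : ℕ) :
    ∀ {G : Type} [Group G] [Finite G] (_ : X G) {B : (G → F) → F} (_ : IsBlock B),
    ∃ (Γ : Type) (_ : Group Γ) (B' : (Γ → F) → F), SG X S q Γ ∧ n < Nat.card Γ ∧
      IsBlock B' ∧ numIrrBlock B' = numIrrBlock B ∧ numWts p red B' = numWts p red B := by
  have step : ∀ {G : Type} [Group G] [Finite G] (_ : X G) {B : (G → F) → F} (_ : IsBlock B),
      ∃ (Γ : Type) (_ : Group Γ) (B' : (Γ → F) → F), SG X S q Γ ∧ Nat.card G < Nat.card Γ ∧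
        IsBlock B' ∧ numIrrBlock B' = numIrrBlock B ∧ numWts p red B' = numWts p red B := by
    intro G _ _ hG B hB
    exact transfer2 red Pool.Agent.P8H21.DL.ca Pool.Agent.P8H41.DL.cb Pool.Agent.P8H54.DL.cc
      Pool.Agent.P8H21.DL.cd Pool.Agent.P8H54.DL.ce Pool.Agent.P8H54.DL.cf
      Pool.Agent.P8H76.DL.inj Pool.Agent.P8H21.DL.Wsm.wsm Pool.Agent.P8H52.DL.dic
      Pool.Agent.P8H52.DL.iso hX hst hS hq hqp hqS hG hB
  induction n with
  | zero =>
    intro G _ _ hG B hB
    obtain ⟨Γ, i, B', h1, h2, h3, h4, h5⟩ := step hG hB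
    exact ⟨Γ, i, B', h1, by omega, h3, h4, h5⟩
  | succ n ih =>
    intro G _ _ hG B hB
    obtain ⟨Γ, i, B', h1, h2, h3, h4, h5⟩ := ih hG hB
    have := h1.2.1
    obtain ⟨Γ', i', B'', g1, g2, g3, g4, g5⟩ := step h1.1 h3
    exact ⟨Γ', i', B'', g1, by omega, g3, g4.trans h4, g5.trans h5⟩

/-- the weight conjecture and a congruence for the groups with few quotients -/
theorem cong_iff2 (hX : Ecl X) {s t : S} (hst : s * t ≠ t * s) (hS : X S)
    {q : ℕ} (hq : q.Prime) (hqp : q ≠ p) (hqS : q ∣ Nat.card S) (r : ℕ) [Fact r.Prime]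
    (hr : X (Multiplicative (ZMod r))) (n : ℕ) :
    (∀ (G : Type) [Group G] [Finite G], X G → BAWC p red G) ↔
    ∀ (G : Type) [Group G], SG X S q G → n < Nat.card G → ∀ B : (G → F) → F, IsBlock B →
      numIrrBlock B ≡ numWts p red B [MOD r] := by
  constructor
  · intro h G _ hG _ B hB
    have := hG.2.1
    have h1 : numIrrBlock B = numWts p red B := h G hG.1 B hB
    rw [h1]
  · intro h
    have key : ∀ (G : Type) [Group G] [Finite G], X G → ∀ B : (G → F) → F, IsBlock B →
        numIrrBlock B ≡ numWts p red B [MOD r] := by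
      intro G _ _ hG B hB
      obtain ⟨Γ, i, B', h1, h2, h3, h4, h5⟩ := large2 red hX hst hS hq hqp hqS n hG hB
      have h6 := h Γ h1 h2 B' h3
      rw [h4, h5] at h6
      exact h6
    by_cases hrp : r = p
    · subst hrp
      exact (bawc_cong r F red X fun H _ _ hH => wr_mem hX hr H hH).1.2 key
    · intro G _ _ hG
      exact of_mod_r red Pool.Agent.P8H62.DL.Lpr.lpr Pool.Agent.P8H62.DL.Wrl.wrl
        Pool.Agent.P8H84.DL.wpr Pool.Agent.P8H62.DL.Wrw.wrw Pool.Agent.P8H88.DL.sumb
        Pool.Agent.P8H88.DL.sumc r hrp (fun H _ _ hH => wr_mem hX hr H hH) key G hG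

/-- the congruence for triples -/
theorem trip_iff2 (hX : Ecl X) {s t : S} (hst : s * t ≠ t * s) (hS : X S)
    {q : ℕ} (hq : q.Prime) (hqp : q ≠ p) (hqS : q ∣ Nat.card S)
    (hr : X (Multiplicative (ZMod p))) (n : ℕ) :
    (∀ (G : Type) [Group G] [Finite G], X G → BAWC p red G) ↔
    ∀ (G : Type) [Group G], SG X S q G → n < Nat.card G → ∀ g : G,
      regTrip p g ≡ ∑ᶠ Q : {Q : Subgroup G // IsPGroup p Q}, tripNum p Q.1 g / Nat.card Q.1
        [MOD p ^ ((Nat.card G).factorization p + 1)] := by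
  rw [cong_iff2 red hX hst hS hq hqp hqS p hr n]
  constructor
  · intro h G _ hG hn g
    have := hG.2.1
    exact (com_iff p g).mp ((free_iff lt' dzq' p F red G).mp (h G hG hn) g)
  · intro h G _ hG hn
    have := hG.2.1
    exact (free_iff lt' dzq' p F red G).mpr fun g => (com_iff p g).mpr (h G hG hn g)

end fin2

end Pool.Agent.P8H58.DL
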