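import Pool.Agent.P8H58.DL.Tr

/-!
# From the congruence modulo `r` to the equality
-/

set_option autoImplicit false
set_option linter.unusedSectionVars false

open scoped BigOperators Classical

noncomputable section

namespace Pool.Agent.P8H58.DL

open Pool.Agent.Y63.NV Pool.Agent.N85.WM
open Pool.Agent.P8H58.FR (Ecl TopS)

/-- powers of congruent integers -/
theorem pow_cong {r j : ℕ} (hj : 1 ≤ j) {a b : ℤ} (h : (r : ℤ) ^ j ∣ a - b) :
    (r : ℤ) ^ (j + 1) ∣ a ^ r - b ^ r := by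
  have h1 : (r : ℤ) ∣ a - b := (dvd_pow_self _ (by omega)).trans h
  have h2 : (r : ℤ) ∣ ∑ i ∈ Finset.range r, a ^ i * b ^ (r - 1 - i) := by
    have h3 : ∀ i ∈ Finset.range r, a ^ i * b ^ (r - 1 - i) ≡ b ^ (r - 1) [ZMOD r] := by
      intro i hi
      have h4 : a ≡ b [ZMOD r] := (Int.modEq_iff_dvd.2 (by
        have := (dvd_neg.2 h1)
        rwa [neg_sub] at this))
      have h5 := ((h4.pow i).mul_right (b ^ (r - 1 - i)))
      rw [← pow_add] at h5
      have h6 : i + (r - 1 - i) = r - 1 := by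
        have := Finset.mem_range.1 hi
        omega
      rw [h6] at h5
      exact h5
    have h4 : (∑ i ∈ Finset.range r, a ^ i * b ^ (r - 1 - i)) ≡
        ∑ _i ∈ Finset.range r, b ^ (r - 1) [ZMOD r] := Int.ModEq.sum h3
    rw [Finset.sum_const, Finset.card_range, nsmul_eq_mul] at h4
    refine Int.dvd_of_emod_eq_zero ?_
    have h7 : (∑ i ∈ Finset.range r, a ^ i * b ^ (r - 1 - i)) % (r : ℤ) =
      (r : ℤ) * b ^ (r - 1) % (r : ℤ) := h4
    rw [h7]
    exact Int.mul_emod_right _ _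
  rw [← (Commute.all a b).geom_sum₂_mul, pow_succ, mul_comm]
  exact mul_dvd_mul h2 h

/-- the arithmetic of the wreath product -/
theorem step {r j l w l' w' : ℕ} (hj : 1 ≤ j) (h1 : r * l' + l = l ^ r + r ^ 2 * l)
    (h2 : r * w' + w = w ^ r + r ^ 2 * w) (h3 : l ≡ w [MOD r ^ j]) (h4 : l' ≡ w' [MOD r ^ j]) :
    l ≡ w [MOD r ^ (j + 1)] := by
  have g1 : (r : ℤ) * l' + l = l ^ r + r ^ 2 * l := by exact_mod_cast h1
  have g2 : (r : ℤ) * w' + w = w ^ r + r ^ 2 * w := by exact_mod_cast h2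
  have g3 : (r : ℤ) ^ j ∣ (l : ℤ) - w := by
    have := (Nat.modEq_iff_dvd.1 h3.symm)
    exact_mod_cast this
  have g4 : (r : ℤ) ^ j ∣ (l' : ℤ) - w' := by
    have := (Nat.modEq_iff_dvd.1 h4.symm)
    exact_mod_cast this
  have g5 := pow_cong hj g3
  have g6 : (r : ℤ) ^ (j + 1) ∣ (r : ℤ) * ((l' : ℤ) - w') := by
    rw [pow_succ, mul_comm]
    exact mul_dvd_mul_left _ g4
  have g7 : (r : ℤ) ^ (j + 1) ∣ ((r : ℤ) ^ 2 - 1) * ((l : ℤ) - w) := by
    have h5 : ((r : ℤ) ^ 2 - 1) * ((l : ℤ) - w) =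
        (r : ℤ) * ((l' : ℤ) - w') - ((l : ℤ) ^ r - w ^ r) := by linear_combination g2 - g1
    rw [h5]
    exact dvd_sub g6 g5
  have g8 : IsCoprime ((r : ℤ) ^ (j + 1)) ((r : ℤ) ^ 2 - 1) := by
    refine IsCoprime.pow_left ⟨r, -1, ?_⟩
    ring
  have g9 := g8.dvd_of_dvd_mul_left g7
  refine (Nat.modEq_iff_dvd.2 ?_).symm
  exact_mod_cast g9

section

variable {p : ℕ} [hp : Fact p.Prime] {F : Type} [Field F] [IsAlgClosed F] [CharP F p]
  (red : integralClosure ℤ ℂ →+* F)

/-- congruences modulo all powers -/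
theorem all_pow (hLPR : S_LPR) (hWRL : S_WRL) (hWPR : S_WPR) (hWRW : S_WRW) (hSB : S_SUMB)
    (hSC : S_SUMC) (r : ℕ) [Fact r.Prime] (hrp : r ≠ p) {X : ∀ (G : Type) [Group G], Prop}
    (hX : ∀ (G : Type) [Group G] [Finite G], X G → X (Wr r G))
    (h : ∀ (G : Type) [Group G] [Finite G], X G → ∀ B : (G → F) → F, IsBlock B →
      numIrrBlock B ≡ numWts p red B [MOD r]) (j : ℕ) :
    ∀ (G : Type) [Group G] [Finite G], X G → ∀ B : (G → F) → F, IsBlock B →
      numIrrBlock B ≡ numWts p red B [MOD r ^ (j + 1)] := by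
  induction j with
  | zero =>
    intro G _ _ hG B hB
    rw [zero_add, pow_one]
    exact h G hG B hB
  | succ j ih =>
    intro G _ _ hG B hB
    obtain ⟨e, he, h1, h2⟩ := hSC p F red G B hB
    have h3 := hWRL hLPR p r F G e hrp he
    obtain ⟨w', h4, h5⟩ := hWRW hWPR p r F red G e (numWts p red B) hrp he h2
    rw [h1] at h3
    have hcl : IsClassFun (wrF r e : Wr r G → F) := fun g x =>
      (Pool.Agent.N85.WM.Ww.inZ (p := r) he.cl).conj g x
    have h6 := hSB p F red (Wr r G) (r ^ (j + 1)) (ih (Wr r G) (hX G hG)) (wrF r e) 1 hcl w' h4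
    exact step (by omega) h3 h5 (ih G hG B hB) h6

/-- **from the congruence modulo `r` to the weight conjecture** -/
theorem of_mod_r (hLPR : S_LPR) (hWRL : S_WRL) (hWPR : S_WPR) (hWRW : S_WRW) (hSB : S_SUMB)
    (hSC : S_SUMC) (r : ℕ) [hr : Fact r.Prime] (hrp : r ≠ p) {X : ∀ (G : Type) [Group G], Prop}
    (hX : ∀ (G : Type) [Group G] [Finite G], X G → X (Wr r G))
    (h : ∀ (G : Type) [Group G] [Finite G], X G → ∀ B : (G → F) → F, IsBlock B →
      numIrrBlock B ≡ numWts p red B [MOD r]) (G : Type) [Group G] [Finite G] (hG : X G) :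
    BAWC p red G := by
  intro B hB
  have key := fun j => all_pow red hLPR hWRL hWPR hWRW hSB hSC r hrp hX h j G hG B hB
  set l := numIrrBlock B
  change l = numWts p red B
  set w := numWts p red B
  have h1 := key (l + w)
  have h2 : l + w < r ^ (l + w + 1) := by
    have := Nat.lt_pow_self hr.out.one_lt (n := l + w + 1)
    omega
  exact h1.eq_of_lt_of_lt (by omega) (by omega)

end

end Pool.Agent.P8H58.DL
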