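import Pool.Agent.Y63.NV.Defs

/-!
# Project DL: `l(B)` and `w(B)` modulo a prime, statements of the light parts

`V` is a finite abelian group of order prime to `p`, `H` a finite group acting on `V`, `l : V →* F` a
linear character over the algebraically closed field `F` of characteristic `p`, and `S` the stabiliser
of `l` in `H`. The parts `CA`, `CB`, `CC`, `CD`, `CE` are Clifford theory over `F` for `V ⋊ H` and `l`.
-/

set_option autoImplicit false

open scoped Classical

noncomputable section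

namespace Pool.Agent.P8H58.DL

open Pool.Agent.Y63.NV

section

variable {F : Type} [Field F] {V H : Type} [CommGroup V] [Group H] {φ : H →* MulAut V}

/-- the component at `l` of a function on `V ⋊ H`, as a function on `S`:
`s ↦ |V|⁻¹ ∑_v l(v)⁻¹ θ(v s)`; for the trace function `θ` of a module `W` it is the trace function of
the `S`-module `W_l = {w | v w = l(v) w}` -/
def comp (l : V →* F) (S : Subgroup H) (θ : V ⋊[φ] H → F) (s : S) : F :=
  (Nat.card V : F)⁻¹ * ∑ᶠ v : V, (l v)⁻¹ * θ ⟨v, s⟩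

/-- `f ↦ (s ↦ ∑_v l(v) f(v s))`, the homomorphism of the centres -/
def cl (l : V →* F) (S : Subgroup H) (f : V ⋊[φ] H → F) (s : S) : F :=
  ∑ᶠ v : V, l v * f ⟨v, s⟩

/-- a preimage of the class function `y` of `S` under `cl` -/
def lf (l : V →* F) (S : Subgroup H) (y : S → F) (x : V ⋊[φ] H) : F :=
  (Nat.card V : F)⁻¹ * ∑ᶠ q : H ⧸ S, if h : q.out⁻¹ * x.right * q.out ∈ S then
    (l (φ q.out⁻¹ x.left))⁻¹ * y ⟨_, h⟩ else 0

end

/-- the data: `S` is the stabiliser of `l` -/
def Dat (p : ℕ) {F : Type} [Field F] {V H : Type} [CommGroup V] [Group H] (φ : H →* MulAut V)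
    (l : V →* F) (S : Subgroup H) : Prop :=
  ¬ p ∣ Nat.card V ∧ ∀ h : H, h ∈ S ↔ ∀ v : V, l (φ h v) = l v

/-- CA (100 lines): the `S`-module `W_l` of an irreducible representation is zero or irreducible.
Proof. The operator `e = |V|⁻¹ ∑_v l(v)⁻¹ ρ(v)` is idempotent with the image
`W_l = {w | ρ(v) w = l(v) w for all v}`. For `h ∈ H` one has `ρ(h) e ρ(h)⁻¹ = e_{l ∘ h⁻¹}`, so `ρ(s)`
commutes with `e` for `s ∈ S`, and `e ρ(h) e = 0` for `h ∉ S` (orthogonality: `l ∘ h⁻¹ ≠ l`). So `W_l`
is a representation of `S` with the trace `tr (e ρ(s)) = comp l S θ s`. If `W_l ≠ 0` let `U ≠ 0` be an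
`S`-invariant subspace of `W_l`; the span of all `ρ(h) U` is `V ⋊ H`-invariant, so it is `W`, and
`W_l = e W` is the span of the `e ρ(h) U`, which are zero for `h ∉ S` and in `U` for `h ∈ S`.
(Note that `comp l S θ = 0` in the first case.) -/
def S_CA : Prop := ∀ (p : ℕ) [Fact p.Prime] (F : Type) [Field F] [IsAlgClosed F] [CharP F p]
  (V H : Type) [CommGroup V] [Group H] [Finite V] [Finite H] (φ : H →* MulAut V) (l : V →* F)
  (S : Subgroup H), Dat p φ l S → ∀ (W : Type) [AddCommGroup W] [Module F W]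
  [FiniteDimensional F W] (ρ : Representation F (V ⋊[φ] H) W), ρ.IsIrreducible →
    (∑ᶠ v : V, (l v)⁻¹ • ρ (SemidirectProduct.inl v) = 0) ∨ IsIrrTrace (comp l S ρ.character)

/-- CB (120 lines): an irreducible trace with a nonzero component is determined by the component.
Proof. In the situation of CA with `W_l ≠ 0` the space `W` is the sum of the `ρ(h) W_l = W_{l ∘ h⁻¹}`,
and the nonzero spaces `W_μ` for different `μ` are independent (`∑_v`-projections). So `W` is the direct
sum of the spaces `ρ(q.out) W_l`, `q ∈ H ⧸ S`, and the trace of `ρ(v h)` is the sum over the `q` with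
`h ρ(q.out) W_l = ρ(q.out) W_l`, that is `q.out⁻¹ h q.out ∈ S`, of
`l(q.out⁻¹ v) · comp l S θ (q.out⁻¹ h q.out)`. This is a formula for `θ` in terms of `comp l S θ`.
(An alternative: two irreducible modules `W`, `W'` such that the `S`-modules `W_l`, `W'_l` have the same
irreducible trace; then there is an `S`-isomorphism `W_l → W'_l`, by the linear independence of the
irreducible traces, `Pool.Agent.Y914.NV.irr`; the submodule of `W × W'` generated by its graph is
the graph of an isomorphism.) -/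
def S_CB : Prop := ∀ (p : ℕ) [Fact p.Prime] (F : Type) [Field F] [IsAlgClosed F] [CharP F p]
  (V H : Type) [CommGroup V] [Group H] [Finite V] [Finite H] (φ : H →* MulAut V) (l : V →* F)
  (S : Subgroup H), Dat p φ l S → ∀ θ θ' : V ⋊[φ] H → F, IsIrrTrace θ → IsIrrTrace θ' →
    comp l S θ ≠ 0 → comp l S θ = comp l S θ' → θ = θ'

/-- CC (150 lines): every irreducible trace of `S` is a component.
Proof. Let `σ` be the irreducible representation of `S` on `U` with the trace `ψ`, and let `W` be the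
space of the functions `f : H → U` with `f(s h) = σ(s) f(h)` for `s ∈ S`, with
`(ρ(v h') f)(h) = l(φ h v) f(h h')`. This is a representation of `V ⋊ H`. The space `W_l` is the
space of the functions with support in `S` (if `f(h) ≠ 0` then `l(φ h v) = l(v)` for all `v`), and it is
isomorphic to `U` as an `S`-module by `f ↦ f(1)`. So `comp l S (tr ρ) = ψ`, see CA. The representation
`ρ` is irreducible: let `M ≠ 0` be a subrepresentation, `f ∈ M`, `f(h) ≠ 0`. Then `ρ(h) f ∈ M` is not
zero at `1`, and its image under `e` (see CA) is in `M ∩ W_l` and has the same value at `1`; so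
`M ∩ W_l ≠ 0`, so `W_l ≤ M` by the irreducibility of `U`, and the translates of `W_l` span `W`. -/
def S_CC : Prop := ∀ (p : ℕ) [Fact p.Prime] (F : Type) [Field F] [IsAlgClosed F] [CharP F p]
  (V H : Type) [CommGroup V] [Group H] [Finite V] [Finite H] (φ : H →* MulAut V) (l : V →* F)
  (S : Subgroup H), Dat p φ l S → ∀ ψ : S → F, IsIrrTrace ψ →
    ∃ θ : V ⋊[φ] H → F, IsIrrTrace θ ∧ comp l S θ = ψ

/-- CD (80 lines): the values of the central characters.
Proof. For the irreducible representation `ρ` on `W` with the trace `θ` and `f` a class function put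
`ρ(f) = ∑_g f(g) ρ(g)`. By Schur's lemma it is a scalar `c`, and `∑_g f(g) θ(g x) = tr (ρ(f) ρ(x))
= c θ(x)` (`Pool.Agent.N85.WM.Lw.schur'`, or directly). Now `∑_t cl f (t) comp θ (t s)` is a sum over
`v`, `w` and `t ∈ S`; the substitution `v ↦ v w` and `l(t w) = l(w)` show that it is
`∑_{v, t ∈ S} f(v t) (comp of θ(v t · ) at s) = |V|⁻¹ ∑_w l(w)⁻¹ ∑_{v, t ∈ S} f(v t) θ(v t w s)`, and
the terms for `t ∉ S` vanish: for `t ∉ S` one has `∑_{v, w} f(v t) l(w)⁻¹ θ(v t w s) =
tr (∑_v f(v t) ρ(v) ρ(t) |V| e ρ(s))`, where `e ρ(s) = e ρ(s) e`, the operator `∑_v f(v t) ρ(v)` maps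
`ρ(t) W_l = W_{l ∘ t⁻¹}` to itself, and `e W_{l ∘ t⁻¹} = 0`. So
`∑_{t ∈ S} cl f (t) comp θ (t s) = |V|⁻¹ ∑_w l(w)⁻¹ ∑_g f(g) θ(g w s) = c · comp θ (s)`. -/
def S_CD : Prop := ∀ (p : ℕ) [Fact p.Prime] (F : Type) [Field F] [IsAlgClosed F] [CharP F p]
  (V H : Type) [CommGroup V] [Group H] [Finite V] [Finite H] (φ : H →* MulAut V) (l : V →* F)
  (S : Subgroup H), Dat p φ l S → ∀ θ : V ⋊[φ] H → F, IsIrrTrace θ → ∀ f : V ⋊[φ] H → F,
    IsClassFun f → ∀ c : F, (∀ x, ∑ᶠ g : V ⋊[φ] H, f g * θ (g * x) = c * θ x) →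
      ∀ s : S, ∑ᶠ t : S, cl l S f t * comp l S θ (t * s) = c * comp l S θ s

/-- CE (100 lines): `lf y` is a class function and a preimage of the class function `y`; and it acts as
zero on the irreducible modules with `W_l = 0`.
Proof. The terms of `lf y` do not depend on the representatives of the cosets, as `l` is
`S`-invariant and `y` is a class function; conjugation by `(w, g)` permutes the cosets (for the part
`w` use that `q.out⁻¹ x.right q.out ∈ S` fixes `l`). (2): `∑_v l(v) (l(q⁻¹ v))⁻¹` is `|V|` if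
`q = S` and zero otherwise. (3): `∑_g lf y (g) θ(g x)` is a sum over `q` and `h ∈ q S q⁻¹` of multiples
of `∑_v l(q⁻¹ v)⁻¹ θ(v h x)`, and `∑_v l(q⁻¹ v)⁻¹ θ(v z) = tr (∑_v l(q⁻¹ v)⁻¹ ρ(v) ρ(z))`, where
`∑_v l(q⁻¹ v)⁻¹ ρ(v) = |V| ρ(q) e ρ(q)⁻¹ = 0` as `e = 0` by CA, because `comp θ = 0` is not an
irreducible trace (they are nonzero functions, `Pool.Agent.N85.WM.Lw.schur'` or
`Pool.Agent.Y914.NV.irr`). -/
def S_CE : Prop := S_CA → ∀ (p : ℕ) [Fact p.Prime] (F : Type) [Field F] [IsAlgClosed F] [CharP F p]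
  (V H : Type) [CommGroup V] [Group H] [Finite V] [Finite H] (φ : H →* MulAut V) (l : V →* F)
  (S : Subgroup H), Dat p φ l S → ∀ y : S → F, IsClassFun y →
    IsClassFun (lf (φ := φ) l S y) ∧ cl l S (lf (φ := φ) l S y) = y ∧
    ∀ θ : V ⋊[φ] H → F, IsIrrTrace θ → comp l S θ = 0 →
      ∀ x, ∑ᶠ g : V ⋊[φ] H, lf l S y g * θ (g * x) = 0

/-- `l(B)`, as in `Pool.Agent.Y63.NV.numIrrBlock` -/
def lB {F : Type} [Field F] {G : Type} [Group G] (B : (G → F) → F) : ℕ :=
  Nat.card {φ : G → F // IsIrrTrace φ ∧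
    ∀ f : G → F, IsClassFun f → ∀ x : G, ∑ᶠ g : G, f g * φ (g * x) = B f * φ x}

/-- CF (100 lines), from CA, CB, CC, CD, CE: the blocks `B` of `S` and `B ∘ cl` of `V ⋊ H` have the
same number of irreducible traces. Proof. The bijection is `θ ↦ comp θ`. If `θ` is in `B ∘ cl` then
`lf (single 1 1)` acts as `B (single 1 1) = 1` on `θ`, so `comp θ ≠ 0` by CE (3) (irreducible traces are
not zero); by CA and CD, and as every class function of `S` is `cl` of a class function, `comp θ` is in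
`B`. It is injective by CB. If `ψ` is in `B` let `θ` be as in CC. By Schur's lemma
(`Pool.Agent.N85.WM.Lw.schur'`) a class function `f` acts as a scalar `c` on `θ`, by CD the function
`cl f` acts as `c` on `ψ`, so `c = B (cl f)`. -/
def S_CF : Prop := S_CA → S_CB → S_CC → S_CD → S_CE → ∀ (p : ℕ) [Fact p.Prime] (F : Type) [Field F] [IsAlgClosed F] [CharP F p]
  (V H : Type) [CommGroup V] [Group H] [Finite V] [Finite H] (φ : H →* MulAut V) (l : V →* F)
  (S : Subgroup H), Dat p φ l S → ∀ B : (S → F) → F, IsBlock B →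
    lB (fun f : V ⋊[φ] H → F => B (cl l S f)) = lB B

/-- INJ (50 lines): the reduction map is injective on the roots of unity of order prime to `p`.
Proof. `a`, `b` are integral, and `red a = red b ≠ 0`, so `c = a b⁻¹` is a root of unity with `c ^ n = 1`
and `red c = 1`. If `c ≠ 1` then `∑_{i < n} c ^ i = 0`, and its reduction is `n ≠ 0` in `F`. -/
def S_INJ : Prop := ∀ (p : ℕ) [Fact p.Prime] (F : Type) [Field F] [CharP F p]
  (red : integralClosure ℤ ℂ →+* F) (n : ℕ) (a b : ℂ), ¬ p ∣ n → a ^ n = 1 → b ^ n = 1 →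
    redC red a = redC red b → a = b

/-- WSM (100 lines): sums over the `p`-subgroups of `V ⋊ H`. Models: `exists_conj`, `inl_conj`,
`conj_inr_sub` in `Pool/Agent/P8H58/Lge.lean` and `sum_sdch`, `count_Psi` in
`Pool/Agent/P8H58/Lgf.lean` (the same for chains of subgroups).
Proof. By `exists_conj` every `p`-subgroup `Q` of `V ⋊ H` is `v R v⁻¹` with `v ∈ V` and `R ≤ H` the image of
`Q`; the number of these `v` is `|N_V(Q)| = |N_V(R)|`, and `N_{V ⋊ H}(R) = C_V(R) ⋊ N_H(R)`,
`N_V(R) = C_V(R)`. So the left side is `∑_R ∑_v |N_V(R)|⁻¹ |N_{V ⋊ H}(R)| b(R)`. -/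
def S_WSM : Prop := ∀ (p : ℕ) [Fact p.Prime] (V H : Type) [CommGroup V] [Group H] [Finite V]
  [Finite H] (φ : H →* MulAut V), ¬ p ∣ Nat.card V → ∀ b : Subgroup (V ⋊[φ] H) → ℚ,
  (∀ (g : V ⋊[φ] H) (Q : Subgroup (V ⋊[φ] H)), b (Q.map (MulAut.conj g).toMonoidHom) = b Q) →
  (∑ᶠ Q : Subgroup (V ⋊[φ] H), if IsPGroup p Q then
      (Nat.card (Subgroup.normalizer (Q : Set (V ⋊[φ] H))) : ℚ) * b Q else 0) =
    (Nat.card V : ℚ) * ∑ᶠ R : Subgroup H, if IsPGroup p R then
      (Nat.card (Subgroup.normalizer (R : Set H)) : ℚ) *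
        b (R.map (SemidirectProduct.inr : H →* V ⋊[φ] H)) else 0

end Pool.Agent.P8H58.DL
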