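import Pool.Agent.N85.WM.Fin
import Pool.Agent.P8H58.AW.Dic

/-!
# Project DL: `l(B)` and `w(B)` modulo a prime, statements of the parts about weights
-/

set_option autoImplicit false

open scoped Classical

noncomputable section

namespace Pool.Agent.P8H58.DL

open Pool.Agent.Y63.NV Pool.Agent.N85.WM
open Pool.Agent.Y63.AWC (IsIrreducibleCharacter)
open Pool.Agent.Q90.WR (IndS)

/-- LPR (120 lines): the irreducible traces of the base group of `G ≀ C_r`. This is `S_LW` of
`N85/WM/Stm.lean` with `ZMod r` instead of `ZMod p` where `p` is the characteristic; copy the file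
`N85/WM/Lw.lean` (`count1`, `count2`, `main`); `Pool.Agent.N85.WM.Pir.main` is general. -/
def S_LPR : Prop := ∀ (p : ℕ) [Fact p.Prime] (r : ℕ) [Fact r.Prime] (F : Type) [Field F]
  [IsAlgClosed F] [CharP F p] (G : Type) [Group G] [Finite G] (e : G → F), IsIdem e →
    Lnum (⊤ : Subgroup (Base r G)) ⊤ (fun x => wrF r e x) 1 = Lnum (⊤ : Subgroup G) ⊤ e 1 ^ r ∧
    Lnum (Base r G) ⊤ (wrF r e) 1 = Lnum (⊤ : Subgroup G) ⊤ e 1

/-- WRL (100 lines), from LPR: irreducible traces and the wreath product `Γ = G ≀ C_r` for a prime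
`r ≠ p`. For an idempotent `e` of the centre with `l` irreducible traces the number `l'` for
`e ⊗ ⋯ ⊗ e` satisfies `r l' + l = l ^ r + r ^ 2 l`.
Proof. `N = Base r G`. Use `Pool.Agent.P8H58.mcl` (`P8H58/Mcl.lean`, `M = Γ`, `Γ ⧸ N` cyclic of order
`r`, not zero in `F`; or `Pool.Agent.P8H58.lnum_eq` in `P8H58/Gam2.lean` with `G = K = N`,
`H = J = ⊤`): the sum of `|St φ| ^ 2` over the irreducible traces `φ` of `N` on which `wrF r e` acts as
one is `|Γ| |N| l'`. There are `l ^ r` such `φ`, and `|St φ|` is `|Γ|` for the `l` invariant ones and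
`|N|` for the others, as `N` has prime index (`Ww.card_quot`, `Ww.mem_Base` for the shape). -/
def S_WRL : Prop := S_LPR → ∀ (p : ℕ) [Fact p.Prime] (r : ℕ) [Fact r.Prime] (F : Type) [Field F]
  [IsAlgClosed F] [CharP F p] (G : Type) [Group G] [Finite G] (e : G → F), r ≠ p → IsIdem e →
    r * Lnum (⊤ : Subgroup (Wr r G)) ⊤ (wrF r e) 1 + Lnum (⊤ : Subgroup G) ⊤ e 1 =
      Lnum (⊤ : Subgroup G) ⊤ e 1 ^ r + r ^ 2 * Lnum (⊤ : Subgroup G) ⊤ e 1

/-- WPR (150 lines): the weights of the base group of `G ≀ C_r`, and those fixed by an element outside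
the base group. Copy `Pool.Agent.N85.WM.Ww.main` and `FO_iff` (file `N85/WM/Ww.lean`, lines 580-851)
with `ZMod r` instead of `ZMod p`; `tot_pi`, `tot_fix`, `piMap_bij` are general. The inputs are
`Pool.Agent.N85.WM.Wpi.main` and `Pool.Agent.N85.WM.Wpi.wpc`. -/
def S_WPR : Prop := ∀ (p : ℕ) [Fact p.Prime] (r : ℕ) [Fact r.Prime] (F : Type) [Field F]
  [IsAlgClosed F] [CharP F p] (red : integralClosure ℤ ℂ →+* F) (G : Type) [Group G] [Finite G]
  (e : G → F) (w : ℕ), IsIdem e →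
    Wsum p red (⊤ : Subgroup G) ⊤ e 1 = (Nat.card G : ℤ) * w →
    Wsum p red (⊤ : Subgroup (Base r G)) ⊤ (fun x => wrF r e x) 1 =
      (Nat.card G : ℤ) ^ r * (w : ℤ) ^ r ∧
    Pool.Agent.N85.WM.Ww.tot (fun (Q : Subgroup (Base r G)) χ => IsW p Q χ ∧
      wcv red Q χ (fun x : Base r G => wrF r e x) = 1 ∧ FixedOut (Base r G) Q χ) =
      (Nat.card G : ℤ) ^ r * (w : ℤ)

/-- WRW (120 lines), from WPR: the weights and the wreath product `Γ = G ≀ C_r`, `r ≠ p`.
Proof. `N = Base r G`, `Γ = Wr r G`. By `Pool.Agent.P8H58.Fr.tot_eq` (`P8H58/Gam5.lean`) with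
`G = K = N`, `H = J = ⊤`, the sum over the weights `(Q, χ)` of `N` with value `1` of
`|N_N(Q)| |U| ^ 2`, `U = UW Q χ` the stabiliser in `Γ` of the `N`-class of `(Q, χ)`, is
`|N| ^ 2 tot_Γ`, and `tot_Γ = Wsum p red ⊤ ⊤ (wrF r e) 1` (`Pool.Agent.N85.WM.Ww.wsum_tot`). As `N` has
prime index `U` is `N` or `Γ`, and it is `Γ` if and only if `FixedOut N Q χ`. With WPR
`tot_Γ = |G| ^ r (w ^ r + (r ^ 2 - 1) w)`; `|Γ| = r |G| ^ r` and `w ^ r - w` is divisible by `r`. -/
def S_WRW : Prop := S_WPR → ∀ (p : ℕ) [Fact p.Prime] (r : ℕ) [Fact r.Prime] (F : Type) [Field F]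
  [IsAlgClosed F] [CharP F p] (red : integralClosure ℤ ℂ →+* F) (G : Type) [Group G] [Finite G]
  (e : G → F) (w : ℕ), r ≠ p → IsIdem e →
    Wsum p red (⊤ : Subgroup G) ⊤ e 1 = (Nat.card G : ℤ) * w →
    ∃ w' : ℕ, Wsum p red (⊤ : Subgroup (Wr r G)) ⊤ (wrF r e) 1 = (Nat.card (Wr r G) : ℤ) * w' ∧
      r * w' + w = w ^ r + r ^ 2 * w

/-- SUMB (100 lines): from the blocks to class functions. Proof. By `lnum_top` and `numIrrBlock_eq`
(`N85/WM/Modp.lean`) the number `Lnum ⊤ ⊤ z c` is the sum of `l(B)` over the different blocks `B` of the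
irreducible traces with `B z = c`; by `numWts_eq`, `Ww.wsum_tot` and the orbit sum (as in `Modp.lean`,
`Free.lean`, `Com.lean`) `Wsum p red ⊤ ⊤ z c` is `|G|` times the sum of `w(B)` over the different blocks
`B` with `B z = c`. -/
def S_SUMB : Prop := ∀ (p : ℕ) [Fact p.Prime] (F : Type) [Field F] [IsAlgClosed F] [CharP F p]
  (red : integralClosure ℤ ℂ →+* F) (G : Type) [Group G] [Finite G] (m : ℕ),
    (∀ B : (G → F) → F, IsBlock B → numIrrBlock B ≡ numWts p red B [MOD m]) →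
    ∀ (z : G → F) (c : F), IsClassFun z → ∀ w : ℕ,
      Wsum p red (⊤ : Subgroup G) ⊤ z c = (Nat.card G : ℤ) * w →
      Lnum (⊤ : Subgroup G) ⊤ z c ≡ w [MOD m]

/-- SUMC (60 lines): every block is given by an idempotent (`exists_idem` in `N85/WM/Sep.lean`; the
values of `lnum_top`, `numWts_eq`, `wcv01`, and the same facts as in SUMB). -/
def S_SUMC : Prop := ∀ (p : ℕ) [Fact p.Prime] (F : Type) [Field F] [IsAlgClosed F] [CharP F p]
  (red : integralClosure ℤ ℂ →+* F) (G : Type) [Group G] [Finite G] (B : (G → F) → F),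
    IsBlock B → ∃ e : G → F, IsIdem e ∧ Lnum (⊤ : Subgroup G) ⊤ e 1 = numIrrBlock B ∧
      Wsum p red (⊤ : Subgroup G) ⊤ e 1 = (Nat.card G : ℤ) * numWts p red B

/-- ISO (100 lines): isomorphisms preserve `l(B)` and `w(B)`. (Tools: `irrTrace_comp`;
`cm`, `wcv_cm`, `tot_cm` in `N85/WM/Ww.lean`, or directly.) -/
def S_ISO : Prop := ∀ (p : ℕ) [Fact p.Prime] (F : Type) [Field F] [IsAlgClosed F] [CharP F p]
  (red : integralClosure ℤ ℂ →+* F) (G G' : Type) [Group G] [Group G'] [Finite G] [Finite G']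
  (e : G ≃* G') (B : (G → F) → F), IsBlock B →
    IsBlock (fun f : G' → F => B (fun x => f (e x))) ∧
    numIrrBlock (fun f : G' → F => B (fun x => f (e x))) = numIrrBlock B ∧
    numWts p red (fun f : G' → F => B (fun x => f (e x))) = numWts p red B

/-- the number of the weights of the block `B` (a set of characters) with the first entry `Q` -/
def wq (p : ℕ) (O : ValuationSubring ℂ) {G : Type} [Group G] (B : Set (G → ℂ)) (Q : Subgroup G) :
    ℕ :=
  Nat.card {χ : Subgroup.normalizer (Q : Set G) → ℂ //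
    IsWt p (Q.subgroupOf (Subgroup.normalizer (Q : Set G))) χ ∧
    χ ∈ IndS O B (Subtype.val : Subgroup.normalizer (Q : Set G) → G)}

/-- the weighted number of the weights -/
def wtot (p : ℕ) (O : ValuationSubring ℂ) {G : Type} [Group G] (B : Set (G → ℂ)) : ℚ :=
  ∑ᶠ Q : Subgroup G, if IsPGroup p Q then
    (Nat.card (Subgroup.normalizer (Q : Set G)) : ℚ) * wq p O B Q else 0

/-- DIC (80 lines): the number of the classes of weights and the weighted number of weights. Proof.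
`numWtBlock p red Q B = wq p O (bs O χ₀) Q` by `Pool.Agent.P8H58.AW.mem_iff`; the sum over the classes
is turned into a sum over all `p`-subgroups `Q` with the factor `|N_G(Q)| / |G|`
(`orbit_sum` as in the theorem `wt_trip` of `N85/WM/Cmt.lean`); `numWtBlock` is invariant under
conjugation of `Q`. -/
def S_DIC : Prop := ∀ (p : ℕ) [Fact p.Prime] (F : Type) [Field F] [CharP F p]
  (red : integralClosure ℤ ℂ →+* F) (O : ValuationSubring ℂ),
  (∀ (a : ℂ) (h : IsIntegral ℤ a), (a ∈ O.nonunits ↔ red ⟨a, h⟩ = 0)) →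
  ∀ (G : Type) [Group G] [Fintype G] (B : (G → F) → F) (χ₀ : G → ℂ), IsIrreducibleCharacter χ₀ →
    (∀ f : G → F, IsClassFun f → centralValue red χ₀ f = B f) →
    (Nat.card G : ℚ) * numWts p red B = wtot p O (Pool.Agent.P8H58.AW.bs O χ₀)

end Pool.Agent.P8H58.DL
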