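import Pool.Agent.P8H58.DL.Emb
import Pool.Agent.N85.TG.Exc0

/-!
# Every block has the numbers `l(B)` and `w(B)` of a block of a group with few quotients
-/

set_option autoImplicit false
set_option linter.unusedSectionVars false

open scoped BigOperators Classical

noncomputable section

namespace Pool.Agent.P8H58.DL

open Pool.Agent.Y63.NV Pool.Agent.N85.WM
open Pool.Agent.Y63.AWC (IsIrreducibleCharacter)
open Pool.Agent.P8H58.FR (st ix Ecl TopS ix_irr mem_st blkOf)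

theorem lB_eq {F : Type} [Field F] {G : Type} [Group G] (B : (G → F) → F) :
    lB B = numIrrBlock B := rfl

theorem numIrr_congr {F : Type} [Field F] {G : Type} [Group G] {B B' : (G → F) → F}
    (h : ∀ f, IsClassFun f → B f = B' f) : numIrrBlock B = numIrrBlock B' := by
  unfold numIrrBlock
  refine Nat.card_congr (Equiv.subtypeEquivRight fun φ => and_congr_right fun _ => ?_)
  constructor
  · intro h1 f hf x
    rw [h1 f hf x, h f hf]
  · intro h1 f hf x
    rw [h1 f hf x, h f hf]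

section tr

variable {p : ℕ} [hp : Fact p.Prime] {F : Type} [Field F] [IsAlgClosed F] [CharP F p]
  (red : integralClosure ℤ ℂ →+* F)

theorem cl_class {V H : Type} [CommGroup V] [Group H] [Finite V] [Finite H]
    {φ : H →* MulAut V} {l : V →* F} {S : Subgroup H} (hS : ∀ h ∈ S, ∀ v : V, l (φ h v) = l v)
    {f : V ⋊[φ] H → F} (hf : IsClassFun f) : IsClassFun (cl l S f) := by
  have := Fintype.ofFinite V
  have := Fintype.ofFinite H
  intro g x
  unfold cl
  rw [finsum_eq_sum_of_fintype, finsum_eq_sum_of_fintype]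
  symm
  refine Fintype.sum_equiv (φ (g : H)).toEquiv _ _ fun v => ?_
  have e : (φ (g : H)).toEquiv v = φ (g : H) v := rfl
  rw [e, hS g g.2]
  congr 1
  have h1 : (⟨φ (g : H) v, ((g * x * g⁻¹ : S) : H)⟩ : V ⋊[φ] H) =
      SemidirectProduct.inr (g : H) * ⟨v, (x : H)⟩ * (SemidirectProduct.inr (g : H))⁻¹ := by
    rw [← map_inv, Pool.Agent.P8H58.FR.conj_inr]
    rfl
  rw [h1, hf]

theorem dat (hINJ : S_INJ) {V H : Type} [CommGroup V] [Group H] [Fintype V] [Fintype H]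
    {φ : H →* MulAut V} (hV : ¬ p ∣ Nat.card V) (lam : V →* ℂˣ) :
    Dat p φ (rl red lam) (st φ lam) := by
  refine ⟨hV, fun h => ?_⟩
  rw [mem_st]
  have hr : ∀ v : V, (lam v : ℂ) ^ Nat.card V = 1 := by
    intro v
    rw [← Units.val_pow_eq_pow_val, ← map_pow, pow_card_eq_one', map_one, Units.val_one]
  constructor
  · intro h1 v
    rw [rl_apply, rl_apply, h1]
  · intro h1 v
    have h2 := h1 v
    rw [rl_apply, rl_apply] at h2
    exact Units.ext (hINJ p F red (Nat.card V) _ _ hV (hr _) (hr _) h2)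

/-- **Fong–Reynolds for `l(B)` and `w(B)`** -/
theorem fr (hCA : S_CA) (hCB : S_CB) (hCC : S_CC) (hCD : S_CD) (hCE : S_CE) (hCF : S_CF)
    (hINJ : S_INJ) (hWSM : S_WSM) (hDIC : S_DIC)
    {V H : Type} [CommGroup V] [Group H] [Fintype V] [Fintype H]
    {φ : H →* MulAut V} (hV : ¬ p ∣ Nat.card V) (lam : V →* ℂˣ) {B₁ : (st φ lam → F) → F}
    (hB₁ : IsBlock B₁) : ∃ B' : (V ⋊[φ] H → F) → F, IsBlock B' ∧
      numIrrBlock B' = numIrrBlock B₁ ∧ numWts p red B' = numWts p red B₁ := by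
  obtain ⟨ψ₀, h0, h1⟩ := Pool.Agent.N85.TG.Exc.core red hB₁
  obtain ⟨O, hO⟩ := Pool.Agent.P8H58.AW.exists_O red
  have hpO : (p : ℂ) ∈ O.nonunits := Pool.Agent.P8H58.AW.p_nonunit red hO p
  have hD : Dat p φ (rl red lam) (st φ lam) := dat red hINJ hV lam
  have hi : IsIrreducibleCharacter (ix lam ψ₀) := ix_irr h0
  refine ⟨fun f => centralValue red (ix lam ψ₀) f,
    Pool.Agent.Y930.NV.cvh F red _ (ix lam ψ₀) hi, ?_, ?_⟩
  · have h2 := hCF hCA hCB hCC hCD hCE p F V H φ (rl red lam) (st φ lam) hD B₁ hB₁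
    rw [lB_eq, lB_eq] at h2
    rw [← h2]
    refine numIrr_congr fun f hf => ?_
    rw [cv_ix red h0 hf]
    exact h1 _ (cl_class (fun h hh v => (hD.2 h).1 hh v) hf)
  · have h2 := hDIC p F red O hO (V ⋊[φ] H) (fun f => centralValue red (ix lam ψ₀) f)
      (ix lam ψ₀) hi fun f _ => rfl
    have h3 := hDIC p F red O hO (st φ lam) B₁ ψ₀ h0 h1
    have h4 := wtot_fr (φ := φ) (lam := lam) hWSM hpO hV
      (Pool.Agent.P8H58.AW.bs_block O h0) (Pool.Agent.P8H58.AW.self_mem O h0)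
    have e1 : wtot p O (blkOf O (ix lam ψ₀)) =
        wtot p O (Pool.Agent.P8H58.AW.bs O (ix lam ψ₀)) := rfl
    rw [e1, ← h2, ← h3, SemidirectProduct.card] at h4
    have n1 : (Nat.card V : ℚ) ≠ 0 := by exact_mod_cast Nat.card_pos.ne'
    have n2 : (Nat.card H : ℚ) ≠ 0 := by exact_mod_cast Nat.card_pos.ne'
    have n3 : (Nat.card (st φ lam) : ℚ) ≠ 0 := by exact_mod_cast Nat.card_pos.ne'
    have h5 : (numWts p red (fun f : V ⋊[φ] H → F => centralValue red (ix lam ψ₀) f) : ℚ) =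
        numWts p red B₁ := by
      have h6 : ((Nat.card V : ℚ) * Nat.card H * Nat.card (st φ lam)) *
          (numWts p red (fun f : V ⋊[φ] H → F => centralValue red (ix lam ψ₀) f) : ℚ) =
          ((Nat.card V : ℚ) * Nat.card H * Nat.card (st φ lam)) * numWts p red B₁ := by
        push_cast at h4
        linear_combination h4
      exact mul_left_cancel₀ (mul_ne_zero (mul_ne_zero n1 n2) n3) h6
    exact_mod_cast h5

/-- **the transfer** -/
theorem transfer (hCA : S_CA) (hCB : S_CB) (hCC : S_CC) (hCD : S_CD) (hCE : S_CE) (hCF : S_CF)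
    (hINJ : S_INJ) (hWSM : S_WSM) (hDIC : S_DIC) (hISO : S_ISO)
    {X : ∀ (G : Type) [Group G], Prop} (hX : Ecl X)
    {S : Type} [Group S] [Finite S] [IsSimpleGroup S] {s t : S} (hst : s * t ≠ t * s) (hS : X S)
    {G : Type} [Group G] [Finite G] (hG : X G) {B : (G → F) → F} (hB : IsBlock B) :
    ∃ (Γ : Type) (_ : Group Γ) (B' : (Γ → F) → F), X Γ ∧ Finite Γ ∧ TopS S Γ ∧
      (∀ P : Subgroup Γ, P.Normal → IsPGroup p P → P = ⊥) ∧ Nat.card G < Nat.card Γ ∧
      IsBlock B' ∧ numIrrBlock B' = numIrrBlock B ∧ numWts p red B' = numWts p red B := by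
  haveI : Fintype G := Fintype.ofFinite G
  obtain ⟨V, H, _, _, _, _, φ, lam, e, h1, h2, hV, hc, h4⟩ := exists_emb (p := p) hX hst hS hG
  obtain ⟨h5, h6, h7⟩ := hISO p F red G (st φ lam) e.symm B hB
  obtain ⟨B', h8, h9, h10⟩ := fr red hCA hCB hCC hCD hCE hCF hINJ hWSM hDIC hV lam h5
  exact ⟨V ⋊[φ] H, inferInstance, B', h1, inferInstance, h2, h4, hc, h8, h9.trans h6, h10.trans h7⟩

/-- **the transfer to large groups** -/
theorem transfer_large (hCA : S_CA) (hCB : S_CB) (hCC : S_CC) (hCD : S_CD) (hCE : S_CE)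
    (hCF : S_CF) (hINJ : S_INJ) (hWSM : S_WSM) (hDIC : S_DIC) (hISO : S_ISO)
    {X : ∀ (G : Type) [Group G], Prop} (hX : Ecl X)
    {S : Type} [Group S] [Finite S] [IsSimpleGroup S] {s t : S} (hst : s * t ≠ t * s) (hS : X S)
    (n : ℕ) : ∀ {G : Type} [Group G] [Finite G] (_ : X G) {B : (G → F) → F} (_ : IsBlock B),
    ∃ (Γ : Type) (_ : Group Γ) (B' : (Γ → F) → F), X Γ ∧ Finite Γ ∧ TopS S Γ ∧
      (∀ P : Subgroup Γ, P.Normal → IsPGroup p P → P = ⊥) ∧ n < Nat.card Γ ∧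
      IsBlock B' ∧ numIrrBlock B' = numIrrBlock B ∧ numWts p red B' = numWts p red B := by
  induction n with
  | zero =>
    intro G _ _ hG B hB
    obtain ⟨Γ, i, B', h1, h2, h3, h4, h5, h6, h7, h8⟩ :=
      transfer red hCA hCB hCC hCD hCE hCF hINJ hWSM hDIC hISO hX hst hS hG hB
    exact ⟨Γ, i, B', h1, h2, h3, h4, by omega, h6, h7, h8⟩
  | succ n ih =>
    intro G _ _ hG B hB
    obtain ⟨Γ, i, B', h1, h2, h3, h4, h5, h6, h7, h8⟩ := ih hG hB
    obtain ⟨Γ', i', B'', g1, g2, g3, g4, g5, g6, g7, g8⟩ :=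
      transfer red hCA hCB hCC hCD hCE hCF hINJ hWSM hDIC hISO hX hst hS h1 h6
    exact ⟨Γ', i', B'', g1, g2, g3, g4, by omega, g6, g7.trans h7, g8.trans h8⟩

end tr

end Pool.Agent.P8H58.DL
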