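import Pool.Agent.P8H58.Lgh
import Pool.Agent.P8H58.DL.StmB

/-!
# The weights of the block above a linear character: the local formula
-/

set_option autoImplicit false
set_option linter.unusedSectionVars false

open scoped BigOperators Classical

noncomputable section

namespace Pool.Agent.P8H58.DL

open Pool.Agent.Y63.KR Pool.Agent.Q90.WR Pool.Agent.H254R3.IN Pool.Agent.Q259.BW
open Pool.Agent.Helper884 Pool.Agent.N19.RB Pool.Agent.P8H58.FR
open Pool.Agent.Y63.NV (IsWt)

open SemidirectProduct (inl inr rightHom)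

/-! ### the subgroup `R` as a chain -/

section sg

variable {G : Type} [Group G]

/-- the chain with the only member `R`, empty for `R = ⊥` -/
def sg (R : Subgroup G) : Set (Subgroup G) := {P | P = R ∧ P ≠ ⊥}

theorem sg_chain {p : ℕ} {R : Subgroup G} (hR : IsPGroup p R) : IsPChain p (sg R) := by
  refine ⟨?_, ?_, ?_⟩
  · rintro P ⟨rfl, _⟩ Q ⟨rfl, _⟩ h
    exact absurd rfl h
  · rintro P ⟨rfl, _⟩
    exact hR
  · rintro P ⟨_, h⟩
    exact h

theorem sg_sSup (R : Subgroup G) : sSup (sg R) = R := by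
  by_cases h : R = ⊥
  · have : sg R = ∅ := by
      ext P
      constructor
      · rintro ⟨rfl, h1⟩
        exact h1 h
      · intro h1
        exact absurd h1 (Set.notMem_empty P)
    rw [this, sSup_empty, h]
  · have : sg R = {R} := by
      ext P
      constructor
      · rintro ⟨rfl, _⟩
        rfl
      · intro h1
        rw [Set.mem_singleton_iff] at h1
        rw [h1]
        exact ⟨rfl, h⟩
    rw [this, sSup_singleton]

theorem conj_iff_norm (R : Subgroup G) (g : G) :
    conjSub g R = R ↔ g ∈ Subgroup.normalizer (R : Set G) := by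
  rw [Subgroup.mem_normalizer_iff]
  constructor
  · intro h x
    constructor
    · intro hx
      have h1 : g * x * g⁻¹ ∈ conjSub g R := conj_mem_conjSub hx
      rw [h] at h1
      exact h1
    · intro hx
      have h2 : g * x * g⁻¹ ∈ R := hx
      rw [← h, mem_conjSub] at h2
      have e : g⁻¹ * (g * x * g⁻¹) * g = x := by group
      rwa [e] at h2
  · intro h
    ext x
    rw [mem_conjSub]
    have h1 := h (g⁻¹ * x * g)
    have e : g * (g⁻¹ * x * g) * g⁻¹ = x := by group
    rw [e] at h1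
    exact h1

theorem sg_stab (R : Subgroup G) : chainStabilizer (sg R) = Subgroup.normalizer (R : Set G) := by
  ext g
  rw [mem_chainStabilizer, ← conj_iff_norm]
  constructor
  · intro h
    by_cases h1 : R = ⊥
    · rw [h1]
      unfold conjSub
      exact Subgroup.map_bot _
    · exact h R ⟨rfl, h1⟩
  · rintro h P ⟨rfl, _⟩
    exact h

theorem sg_nor (R : Subgroup G) : Nor (sg R) := by
  unfold Nor
  rw [sg_sSup, sg_stab]
  exact Subgroup.le_normalizer

theorem im_sg {G' : Type} [Group G'] {f : G →* G'} (hf : Function.Injective f) (R : Subgroup G) :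
    im f (sg R) = sg (R.map f) := by
  ext P
  constructor
  · rintro ⟨Q, ⟨rfl, h⟩, rfl⟩
    exact ⟨rfl, fun h1 => h ((Subgroup.map_eq_bot_iff_of_injective Q hf).mp h1)⟩
  · rintro ⟨rfl, h⟩
    refine ⟨R, ⟨rfl, ?_⟩, rfl⟩
    rintro rfl
    exact h (Subgroup.map_bot f)

theorem conj_sg (g : G) (R : Subgroup G) : conjSub g '' sg R = sg (conjSub g R) :=
  im_sg (f := (MulAut.conj g).toMonoidHom) (MulAut.conj g).injective R

end sg

/-! ### the number of weights -/

section wn

variable {G K : Type} [Group G] [Group K] (p : ℕ) (O : ValuationSubring ℂ)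

/-- the characters of `K` which are weights relative to `D` and in the block `B` -/
def wn (B : Set (G → ℂ)) (π : K → G) (D : Subgroup K) : ℕ :=
  Nat.card {χ : K → ℂ // IsWt p D χ ∧ χ ∈ IndS O B π}

variable {p O}

theorem isWt_comp {K' : Type} [Group K'] (e : K ≃* K') {D : Subgroup K} {D' : Subgroup K'}
    (hD : ∀ x, x ∈ D ↔ e x ∈ D') (θ : K' → ℂ) : IsWt p D (fun x => θ (e x)) ↔ IsWt p D' θ := by
  have hc : Nat.card K = Nat.card K' := Nat.card_congr e.toEquiv
  have hcD : Nat.card D = Nat.card D' := Nat.card_congr (e.toEquiv.subtypeEquiv hD)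
  have h1 : Pool.Agent.Y63.AWC.IsIrreducibleCharacter (fun g => θ (e g)) ↔
      Pool.Agent.Y63.AWC.IsIrreducibleCharacter θ := irr_comp_iff e
  constructor
  · rintro ⟨h2, h3, n, h4, h5⟩
    refine ⟨h1.1 h2, fun q hq x => ?_, n, ?_, ?_⟩
    · have h6 := h3 (e.symm q) ((hD _).2 (by rw [e.apply_symm_apply]; exact hq)) (e.symm x)
      simpa using h6
    · rw [← h4, map_one]
    · rw [← hc, ← hcD]
      exact h5
  · rintro ⟨h2, h3, n, h4, h5⟩
    refine ⟨h1.2 h2, fun q hq x => ?_, n, ?_, ?_⟩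
    · beta_reduce
      rw [map_mul]
      exact h3 _ ((hD q).1 hq) _
    · rw [← h4, map_one]
    · rw [hc, hcD]
      exact h5

theorem wn_congr {K' : Type} [Group K'] (e : K ≃* K') {B : Set (G → ℂ)} {π : K → G}
    {π' : K' → G} (h : ∀ c, IsConj (π c) (π' (e c))) {D : Subgroup K} {D' : Subgroup K'}
    (hD : ∀ x, x ∈ D ↔ e x ∈ D') : wn p O B π D = wn p O B π' D' := by
  unfold wn
  symm
  refine Nat.card_congr
    { toFun := fun χ => ⟨fun x => χ.1 (e x), (isWt_comp e hD χ.1).2 χ.2.1,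
        (IndS_congr e h χ.1).2 χ.2.2⟩
      invFun := fun χ => ⟨fun x => χ.1 (e.symm x), ?_, ?_⟩
      left_inv := fun χ => ?_
      right_inv := fun χ => ?_ }
  · rw [← isWt_comp e hD]
    simpa using χ.2.1
  · rw [← IndS_congr e h]
    simpa using χ.2.2
  · apply Subtype.ext
    funext x
    simp
  · apply Subtype.ext
    funext x
    simp

theorem wn_sum [Fintype K] (B : Set (G → ℂ)) (π : K → G) (D : Subgroup K) :
    (wn p O B π D : ℚ) = ∑ θ ∈ IC.Irr K, if IsWt p D θ ∧ θ ∈ IndS O B π then 1 else 0 := by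
  rw [← Finset.sum_filter, Finset.sum_const, nsmul_eq_mul, mul_one]
  unfold wn
  congr 1
  refine Nat.subtype_card _ fun χ => ?_
  rw [Finset.mem_filter, IC.mem_Irr]
  exact ⟨fun h => h.2, fun h => ⟨h.1.irr, h⟩⟩

theorem wq_eq (B : Set (G → ℂ)) (Q : Subgroup G) :
    wq p O B Q = wn p O B (Subtype.val : chainStabilizer (sg Q) → G)
      ((sSup (sg Q)).subgroupOf (chainStabilizer (sg Q))) := by
  rw [sg_sSup]
  have h : ∀ L : Subgroup G, L = Subgroup.normalizer (Q : Set G) →
      wq p O B Q = wn p O B (Subtype.val : L → G) (Q.subgroupOf L) := by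
    rintro _ rfl
    rfl
  exact h _ (sg_stab Q)

end wn

/-! ### weights of the semidirect product -/

section ixw

variable {A M : Type} [CommGroup A] [Group M] [Fintype A] [Fintype M] {φ : M →* MulAut A}
  {p : ℕ} [hp : Fact p.Prime]

/-- the subgroup `D` of the complement -/
abbrev DD (φ : M →* MulAut A) (D : Subgroup M) : Subgroup (A ⋊[φ] M) := D.map inr

theorem mem_map_inr {D : Subgroup M} {x : A ⋊[φ] M} :
    x ∈ D.map (inr : M →* A ⋊[φ] M) ↔ x.left = 1 ∧ x.right ∈ D := by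
  constructor
  · rintro ⟨d, hd, rfl⟩
    exact ⟨rfl, hd⟩
  · rintro ⟨h1, h2⟩
    exact ⟨x.right, h2, SemidirectProduct.ext h1.symm rfl⟩

theorem card_DD (D : Subgroup M) : Nat.card (DD φ D) = Nat.card D :=
  (Nat.card_congr (D.equivMapOfInjective _ SemidirectProduct.inr_injective).toEquiv).symm

theorem inr_mul (d : M) (x : A ⋊[φ] M) (h : ∀ a, φ d a = a) :
    (inr d * x : A ⋊[φ] M) = ⟨x.left, d * x.right⟩ := by
  refine SemidirectProduct.ext ?_ ?_
  · simp [h]
  · simp

theorem xt_inr {D : Subgroup M} (hD : ∀ d ∈ D, ∀ a, φ d a = a) {μ : A →* ℂˣ}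
    {ψ : st φ μ → ℂ} (hψ : ∀ d ∈ D.subgroupOf (st φ μ), ∀ s, ψ (d * s) = ψ s) {d : M}
    (hd : d ∈ D) (x : A ⋊[φ] M) : xt μ ψ (inr d * x) = xt μ ψ x := by
  have hds : d ∈ st φ μ := fun a => by rw [hD d hd]
  rw [inr_mul d x (hD d hd)]
  by_cases hx : x.right ∈ st φ μ
  · rw [xt_mk μ ψ _ _ ((st φ μ).mul_mem hds hx)]
    have h1 : xt μ ψ x = (μ x.left : ℂ) * ψ ⟨x.right, hx⟩ := dif_pos hx
    rw [h1]
    congr 1
    exact hψ ⟨d, hds⟩ hd ⟨x.right, hx⟩
  · rw [xt_not μ ψ _ _ (fun h => hx (((st φ μ).mul_mem_cancel_left hds).1 h))]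
    have h1 : xt μ ψ x = 0 := dif_neg hx
    rw [h1]

/-- weights and little groups -/
theorem isWt_ix (hA : ¬ p ∣ Nat.card A) {D : Subgroup M} (hn : D.Normal)
    (hD : ∀ d ∈ D, ∀ a, φ d a = a) {μ : A →* ℂˣ} {ψ : st φ μ → ℂ} (hψ : IsIrr ψ) :
    IsWt p (DD φ D) (ix μ ψ) ↔ IsWt p (D.subgroupOf (st φ μ)) ψ := by
  have hle : D ≤ st φ μ := fun d hd a => by rw [hD d hd]
  have hcD : Nat.card (D.subgroupOf (st φ μ)) = Nat.card D :=
    Nat.card_congr (Subgroup.subgroupOfEquivOfLe hle).toEquiv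
  obtain ⟨n, hn0, hn1⟩ := deg_pos hψ
  have h1 : ix μ ψ 1 = (((st φ μ).index * n : ℕ) : ℂ) := by
    have h2 := ix_one_eq ψ
    have hS : (Nat.card (st φ μ) : ℂ) ≠ 0 := cardG_ne _
    apply mul_left_cancel₀ hS
    rw [h2, hn1, ← (st φ μ).card_mul_index]
    push_cast
    ring
  have hi : (st φ μ).index ≠ 0 := Subgroup.index_ne_zero_of_finite
  have e1 : (Nat.card (A ⋊[φ] M)).factorization p =
      (Nat.card (st φ μ)).factorization p + (st φ μ).index.factorization p := by
    rw [SemidirectProduct.card, ← (st φ μ).card_mul_index,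
      Nat.factorization_mul Nat.card_pos.ne' (mul_ne_zero Nat.card_pos.ne' hi),
      Nat.factorization_mul Nat.card_pos.ne' hi, Finsupp.add_apply, Finsupp.add_apply,
      Nat.factorization_eq_zero_of_not_dvd hA, zero_add]
  have e2 : ((st φ μ).index * n).factorization p =
      (st φ μ).index.factorization p + n.factorization p := by
    rw [Nat.factorization_mul hi hn0.ne', Finsupp.add_apply]
  constructor
  · rintro ⟨_, h3, m, h4, h5⟩
    refine ⟨hψ, fun d hd s => ?_, n, hn1, ?_⟩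
    · have h6 : ∀ a : A, ix μ ψ ⟨a, ((d * s : st φ μ) : M)⟩ = ix μ ψ ⟨a, (s : M)⟩ := by
        intro a
        have h7 := h3 (inr (d : M)) ⟨(d : M), hd, rfl⟩ ⟨a, (s : M)⟩
        rw [inr_mul _ _ (hD (d : M) hd)] at h7
        exact h7
      rw [← cp_ix μ hψ.conj (d * s), ← cp_ix μ hψ.conj s]
      unfold cp
      congr 1
      exact Finset.sum_congr rfl fun a _ => by rw [h6 a]
    · have h6 : m = (st φ μ).index * n := by
        have h7 := h4.symm.trans h1
        exact_mod_cast h7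
      rw [h6, e1, e2, card_DD] at h5
      rw [hcD]
      omega
  · rintro ⟨_, h3, m, h4, h5⟩
    refine ⟨ix_irr hψ, ?_, (st φ μ).index * n, h1, ?_⟩
    · rintro _ ⟨d, hd, rfl⟩ x
      unfold ix
      congr 1
      refine Finset.sum_congr rfl fun m _ => ?_
      have h6 : (inr m * (inr d * x) * inr m⁻¹ : A ⋊[φ] M) =
          inr (m * d * m⁻¹) * (inr m * x * inr m⁻¹) := by
        rw [map_mul, map_mul, map_inv]
        group
      rw [h6]
      exact xt_inr hD h3 (hn.conj_mem d hd m) _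
    · have h6 : m = n := by
        have h7 := h4.symm.trans hn1
        exact_mod_cast h7
      rw [hcD] at h5
      rw [e1, e2, card_DD]
      rw [h6] at h5
      omega

end ixw

/-! ### the local formula -/

section tot

variable {V H : Type} [CommGroup V] [Group H] [Fintype V] [Fintype H] {φ : H →* MulAut V}
  {p : ℕ} [hp : Fact p.Prime] {O : ValuationSubring ℂ}

/-- the homomorphism from the stabiliser of a chain -/
abbrev prc (φ : H →* MulAut V) {σ : Set (Subgroup H)} (hσ : IsPChain p σ) :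
    FA φ σ ⋊[phM φ hσ] chainStabilizer σ → V ⋊[φ] H := fun x => ⟨(x.left : V), (x.right : H)⟩

/-- the contribution of a linear character of the fixed points -/
def FW (p : ℕ) [Fact p.Prime] (O : ValuationSubring ℂ) {σ : Set (Subgroup H)} (hσ : IsPChain p σ)
    (B' : Set (V ⋊[φ] H → ℂ)) (μ : FA φ σ →* ℂˣ) : ℚ :=
  (Nat.card (st (phM φ hσ) μ) : ℚ) * ∑ ψ ∈ IC.Irr (st (phM φ hσ) μ),
    if IsWt p (DD (phM φ hσ) (DM σ)) (ix μ ψ) ∧ ix μ ψ ∈ IndS O B' (prc φ hσ) then 1 else 0

theorem bw_sumW {σ : Set (Subgroup H)} (hσ : IsPChain p σ) (B' : Set (V ⋊[φ] H → ℂ)) :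
    (Nat.card (chainStabilizer σ) : ℚ) *
      wn p O B' (Subtype.val : chainStabilizer (im (inr : H →* V ⋊[φ] H) σ) → V ⋊[φ] H)
        ((sSup (im (inr : H →* V ⋊[φ] H) σ)).subgroupOf
          (chainStabilizer (im (inr : H →* V ⋊[φ] H) σ))) =
      ∑ μ : FA φ σ →* ℂˣ, FW p O hσ B' μ := by
  have h1 : wn p O B' (Subtype.val : chainStabilizer (im (inr : H →* V ⋊[φ] H) σ) → V ⋊[φ] H)
        ((sSup (im (inr : H →* V ⋊[φ] H) σ)).subgroupOf
          (chainStabilizer (im (inr : H →* V ⋊[φ] H) σ))) =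
      wn p O B' (prc φ hσ) (DD (phM φ hσ) (DM σ)) := by
    symm
    refine wn_congr (eM hσ) ?_ ?_
    · intro c
      exact IsConj.refl _
    · intro x
      rw [Subgroup.mem_subgroupOf, im_sSup, mem_map_inr, mem_map_inr]
      have e1 : ((eM hσ x : chainStabilizer (im (inr : H →* V ⋊[φ] H) σ)) : V ⋊[φ] H).left =
        ((x.left : FA φ σ) : V) := rfl
      have e2 : ((eM hσ x : chainStabilizer (im (inr : H →* V ⋊[φ] H) σ)) : V ⋊[φ] H).right =
        ((x.right : chainStabilizer σ) : H) := rfl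
      rw [e1, e2, Subgroup.mem_subgroupOf, OneMemClass.coe_eq_one]
  rw [h1, wn_sum]
  unfold FW
  exact sum_Irr_sd (φ := phM φ hσ) (fun θ : FA φ σ ⋊[phM φ hσ] chainStabilizer σ → ℂ =>
    if IsWt p (DD (phM φ hσ) (DM σ)) θ ∧ θ ∈ IndS O B' (prc φ hσ) then (1 : ℚ) else 0)

end tot

end Pool.Agent.P8H58.DL
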