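import Pool.Agent.P8H58.DL.W1

/-!
# The weights of the block above a linear character: the local formula, second part
-/

set_option autoImplicit false
set_option linter.unusedSectionVars false

open scoped BigOperators Classical

noncomputable section

namespace Pool.Agent.P8H58.DL

open Pool.Agent.Y63.KR Pool.Agent.Q90.WR Pool.Agent.H254R3.IN Pool.Agent.Q259.BW
open Pool.Agent.Helper884 Pool.Agent.N19.RB Pool.Agent.P8H58.FR
open Pool.Agent.Y63.NV (IsWt)

open SemidirectProduct (inl inr rightHom)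

section tot

variable {V H : Type} [CommGroup V] [Group H] [Fintype V] [Fintype H] {φ : H →* MulAut V}
  {p : ℕ} [hp : Fact p.Prime] {O : ValuationSubring ℂ}

/-- the contribution of a chain -/
def YW (p : ℕ) (O : ValuationSubring ℂ) (φ : H →* MulAut V) (lam : V →* ℂˣ)
    (B : Set (st φ lam → ℂ)) (σ : Set (Subgroup H)) : ℚ :=
  if sSup σ ≤ st φ lam then (Nat.card (FR.KS φ lam σ) : ℚ) *
    wn p O B (Subtype.val : FR.KS φ lam σ → st φ lam)
      (((sSup σ).subgroupOf (st φ lam)).subgroupOf (FR.KS φ lam σ)) else 0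

theorem triv_DM {σ : Set (Subgroup H)} (hσ : IsPChain p σ) (hn : Nor σ) :
    ∀ d ∈ DM σ, ∀ a, phM φ hσ d a = a := fun d hd a => (Lo_chain hσ hn).triv hd a

/-- the contribution of the translate of `lam` by `g` -/
theorem FW_good (hpO : (p : ℂ) ∈ O.nonunits) {σ : Set (Subgroup H)} (hσ : IsPChain p σ)
    (hn : Nor σ) (hV : ¬ p ∣ Nat.card V) {lam : V →* ℂˣ} {B : Set (st φ lam → ℂ)}
    (hB : IsBlock O B) {ψ₀ : st φ lam → ℂ} (h0 : ψ₀ ∈ B) {g : H}
    (hg : conjSub g (sSup σ) ≤ st φ lam) :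
    FW p O hσ (blkOf O (ix lam ψ₀)) ((tr φ lam g).comp (FA φ σ).subtype) =
      YW p O φ lam B (conjSub g '' σ) := by
  have hν := (good_iff hn).mp hg
  have L := Lo_chain (φ := φ) hσ hn
  unfold FW YW
  rw [conj_sSup, if_pos hg, Nat.card_congr (eK hσ hn hV hν).toEquiv]
  congr 1
  have h1 : wn p O B (Subtype.val : FR.KS φ lam (conjSub g '' σ) → st φ lam)
      (((conjSub g (sSup σ)).subgroupOf (st φ lam)).subgroupOf (FR.KS φ lam (conjSub g '' σ))) =
      wn p O B (kap L hV hν g rfl)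
        ((DM σ).subgroupOf (st (phM φ hσ) ((tr φ lam g).comp (FA φ σ).subtype))) := by
    symm
    refine wn_congr (eK hσ hn hV hν) ?_ ?_
    · intro c
      exact IsConj.refl _
    · intro s
      have e1 : (((eK hσ hn hV hν s : FR.KS φ lam (conjSub g '' σ)) : st φ lam) : H) =
        g * ((s : chainStabilizer σ) : H) * g⁻¹ := rfl
      rw [Subgroup.mem_subgroupOf, Subgroup.mem_subgroupOf, Subgroup.mem_subgroupOf,
        Subgroup.mem_subgroupOf, e1, mem_conjSub]
      have e : g⁻¹ * (g * ((s : chainStabilizer σ) : H) * g⁻¹) * g =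
        ((s : chainStabilizer σ) : H) := by group
      rw [e]
  rw [h1, wn_sum]
  refine Finset.sum_congr rfl fun ψ hψ => ?_
  have hψi : IsIrr ψ := IC.mem_Irr.mp hψ
  have h2 := ind_kap hpO L hV hν g rfl hB h0 hψi
  have h3 : (ix ((tr φ lam g).comp (FA φ σ).subtype) ψ ∈ IndS O (blkOf O (ix lam ψ₀))
      (prc φ hσ)) ↔ ψ ∈ IndS O B (kap L hV hν g rfl) := h2
  have h4 := isWt_ix (φ := phM φ hσ) (card_FA hV σ) L.nor (triv_DM hσ hn)
    (μ := (tr φ lam g).comp (FA φ σ).subtype) hψi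
  simp only [h3, h4]

/-- the other linear characters do not contribute -/
theorem FW_bad (hpO : (p : ℂ) ∈ O.nonunits) {σ : Set (Subgroup H)} (hσ : IsPChain p σ)
    (hn : Nor σ) (hV : ¬ p ∣ Nat.card V) {lam : V →* ℂˣ} {ψ₀ : st φ lam → ℂ} (h0 : IsIrr ψ₀)
    {μ : FA φ σ →* ℂˣ} (hμ : ∀ g, conjSub g (sSup σ) ≤ st φ lam →
      (tr φ lam g).comp (FA φ σ).subtype ≠ μ) :
    FW p O hσ (blkOf O (ix lam ψ₀)) μ = 0 := by
  have L := Lo_chain (φ := φ) hσ hn
  obtain ⟨ν, hν, rfl⟩ := L.exists_ext hV μ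
  unfold FW
  rw [Finset.sum_eq_zero, mul_zero]
  intro ψ hψ
  rw [if_neg]
  have hψi : IsIrr ψ := IC.mem_Irr.mp hψ
  have h1 : ∀ g, tr φ lam g ≠ ν := by
    rintro g rfl
    exact hμ g ((good_iff hn).mpr hν) rfl
  exact fun h => ind_none hpO L hV hν h1 h0 hψi h.2

/-- the sum over the linear characters as a sum over the group -/
theorem sum_FW (hpO : (p : ℂ) ∈ O.nonunits) {σ : Set (Subgroup H)} (hσ : IsPChain p σ)
    (hn : Nor σ) (hV : ¬ p ∣ Nat.card V) {lam : V →* ℂˣ} {B : Set (st φ lam → ℂ)}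
    (hB : IsBlock O B) {ψ₀ : st φ lam → ℂ} (h0 : ψ₀ ∈ B) :
    (Nat.card (st φ lam) : ℚ) * ∑ μ : FA φ σ →* ℂˣ, FW p O hσ (blkOf O (ix lam ψ₀)) μ =
      ∑ g : H, YW p O φ lam B (conjSub g '' σ) := by
  have L := Lo_chain (φ := φ) hσ hn
  set F : (FA φ σ →* ℂˣ) → ℚ := FW p O hσ (blkOf O (ix lam ψ₀)) with hF
  have h1 : ∀ g : H, YW p O φ lam B (conjSub g '' σ) =
      ∑ μ : FA φ σ →* ℂˣ, if (conjSub g (sSup σ) ≤ st φ lam ∧
        (tr φ lam g).comp (FA φ σ).subtype = μ) then F μ else 0 := by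
    intro g
    by_cases hg : conjSub g (sSup σ) ≤ st φ lam
    · rw [← FW_good hpO hσ hn hV hB h0 hg]
      simp only [hg, true_and]
      rw [Finset.sum_ite_eq, if_pos (Finset.mem_univ _)]
    · simp only [hg, false_and, if_false, Finset.sum_const_zero]
      unfold YW
      rw [conj_sSup, if_neg hg]
  rw [Finset.sum_congr rfl fun g _ => h1 g, Finset.sum_comm, Finset.mul_sum]
  refine Finset.sum_congr rfl fun μ _ => ?_
  rw [← Finset.sum_filter, Finset.sum_const, nsmul_eq_mul]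
  by_cases hμ : ∃ g, conjSub g (sSup σ) ≤ st φ lam ∧ (tr φ lam g).comp (FA φ σ).subtype = μ
  · obtain ⟨g₀, hg₀, hμ₀⟩ := hμ
    congr 2
    rw [← count_tr lam g₀]
    congr 1
    ext g
    simp only [Finset.mem_filter, Finset.mem_univ, true_and]
    constructor
    · intro h
      have h2 : tr φ lam g = tr φ lam g₀ := h
      have h3 : ∀ d ∈ DM σ, (chainStabilizer σ).subtype d ∈ st φ (tr φ lam g) := by
        rw [h2]
        exact (good_iff hn).mp hg₀
      exact ⟨(good_iff hn).mpr h3, by rw [h2]; exact hμ₀⟩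
    · rintro ⟨h2, h3⟩
      exact L.unique hV ((good_iff hn).mp h2) ((good_iff hn).mp hg₀) (h3.trans hμ₀.symm)
  · push Not at hμ
    have h2 : F μ = 0 := FW_bad hpO hσ hn hV (hB.irr ψ₀ h0) hμ
    rw [h2, mul_zero, mul_zero]

end tot

end Pool.Agent.P8H58.DL
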