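import Pool.Agent.P8H58.DL.W2
import Pool.Agent.P8H58.DL.StmA

/-!
# The weights of the block above a linear character
-/

set_option autoImplicit false
set_option linter.unusedSectionVars false

open scoped BigOperators Classical

noncomputable section

namespace Pool.Agent.P8H58.DL

open Pool.Agent.Y63.KR Pool.Agent.Q90.WR Pool.Agent.H254R3.IN Pool.Agent.Q259.BW
open Pool.Agent.Helper884 Pool.Agent.N19.RB Pool.Agent.P8H58.FR
open Pool.Agent.Y63.NV (IsWt)

open SemidirectProduct (inl inr rightHom)

section cj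

variable {G : Type} [Group G] {p : ℕ} {O : ValuationSubring ℂ}

theorem wq_conj (B : Set (G → ℂ)) (g : G) (Q : Subgroup G) :
    wq p O B (conjSub g Q) = wq p O B Q := by
  rw [wq_eq, wq_eq, ← conj_sg, conj_sSup, chainStabilizer_conj]
  symm
  refine wn_congr (conjEquiv g (chainStabilizer (sg Q))) ?_ ?_
  · intro c
    exact isConj_iff.mpr ⟨g, rfl⟩
  · intro x
    have e1 : ((conjEquiv g (chainStabilizer (sg Q)) x : conjSub g (chainStabilizer (sg Q))) : G) =
      g * (x : G) * g⁻¹ := rfl
    rw [Subgroup.mem_subgroupOf, Subgroup.mem_subgroupOf, e1, mem_conjSub]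
    have e : g⁻¹ * (g * (x : G) * g⁻¹) * g = x := by group
    rw [e]

end cj

section tot

variable {V H : Type} [CommGroup V] [Group H] [Fintype V] [Fintype H] {φ : H →* MulAut V}
  {p : ℕ} [hp : Fact p.Prime] {O : ValuationSubring ℂ}

/-- the local formula for a `p`-subgroup of the complement -/
theorem loc_R (hpO : (p : ℂ) ∈ O.nonunits) (hV : ¬ p ∣ Nat.card V) {lam : V →* ℂˣ}
    {B : Set (st φ lam → ℂ)} (hB : IsBlock O B) {ψ₀ : st φ lam → ℂ} (h0 : ψ₀ ∈ B)
    {R : Subgroup H} (hR : IsPGroup p R) :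
    (Nat.card (st φ lam) : ℚ) * ((Nat.card (Subgroup.normalizer (R : Set H)) : ℚ) *
      wq p O (blkOf O (ix lam ψ₀)) (R.map (inr : H →* V ⋊[φ] H))) =
      ∑ g : H, YW p O φ lam B (sg (conjSub g R)) := by
  have h1 := sum_FW (φ := φ) hpO (sg_chain hR) (sg_nor R) hV hB h0
  rw [← bw_sumW] at h1
  rw [wq_eq, ← im_sg inr_inj, ← sg_stab R, h1]
  exact Finset.sum_congr rfl fun g _ => by rw [conj_sg]

theorem norm_sub {S : Subgroup H} (R' : Subgroup S) :
    (Subgroup.normalizer ((R'.map S.subtype : Subgroup H) : Set H)).subgroupOf S =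
      Subgroup.normalizer (R' : Set S) := by
  rw [← sg_stab, ← sg_stab, ← im_sg (Subtype.val_injective : Function.Injective S.subtype),
    stab_im_sub]

theorem YW_sub {lam : V →* ℂˣ} {B : Set (st φ lam → ℂ)} (R' : Subgroup (st φ lam)) :
    YW p O φ lam B (sg (R'.map (st φ lam).subtype)) =
      (Nat.card (Subgroup.normalizer (R' : Set (st φ lam))) : ℚ) * wq p O B R' := by
  unfold YW
  have hK : FR.KS φ lam (sg (R'.map (st φ lam).subtype)) = chainStabilizer (sg R') := by
    rw [← stab_im_sub, im_sg (Subtype.val_injective : Function.Injective (st φ lam).subtype)]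
  have hR : (R'.map (st φ lam).subtype).subgroupOf (st φ lam) = R' :=
    Subgroup.comap_map_eq_self_of_injective (Subtype.val_injective) R'
  rw [if_pos (by rw [sg_sSup]; exact Subgroup.map_subtype_le _), sg_sSup, hR, hK, wq_eq, sg_sSup,
    sg_stab]

theorem YW_not {lam : V →* ℂˣ} {B : Set (st φ lam → ℂ)} {R : Subgroup H}
    (h : ¬ R ≤ st φ lam) : YW p O φ lam B (sg R) = 0 := by
  unfold YW
  rw [if_neg (by rw [sg_sSup]; exact h)]

/-- sums over the `p`-subgroups -/
theorem sum_conj_sub {G : Type} [Group G] [Fintype (Subgroup G)] (g : G) (f : Subgroup G → ℚ) :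
    (∑ R : Subgroup G, if IsPGroup p R then f (conjSub g R) else 0) =
      ∑ R : Subgroup G, if IsPGroup p R then f R else 0 := by
  refine Fintype.sum_bijective (fun R => conjSub g R) ⟨conjSub_injective g, fun R =>
    ⟨conjSub g⁻¹ R, ?_⟩⟩ _ _ fun R => ?_
  · change conjSub g (conjSub g⁻¹ R) = R
    rw [← conjSub_mul, mul_inv_cancel, conjSub_one]
  · have h1 : IsPGroup p R ↔ IsPGroup p (conjSub g R) := by
      constructor
      · intro h
        exact h.map _
      · intro h
        have h2 : IsPGroup p (conjSub g⁻¹ (conjSub g R)) := h.map _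
        rwa [← conjSub_mul, inv_mul_cancel, conjSub_one] at h2
    by_cases h : IsPGroup p R
    · rw [if_pos h, if_pos (h1.1 h)]
    · rw [if_neg h, if_neg (fun h2 => h (h1.2 h2))]

/-- **weights of the block above a linear character** -/
theorem wtot_fr (hW : S_WSM) (hpO : (p : ℂ) ∈ O.nonunits) (hV : ¬ p ∣ Nat.card V)
    {lam : V →* ℂˣ} {B : Set (st φ lam → ℂ)} (hB : IsBlock O B) {ψ₀ : st φ lam → ℂ}
    (h0 : ψ₀ ∈ B) : (Nat.card (st φ lam) : ℚ) * wtot p O (blkOf O (ix lam ψ₀)) =
      (Nat.card V : ℚ) * ((Nat.card H : ℚ) * wtot p O B) := by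
  haveI : Fintype (Subgroup H) := Fintype.ofFinite _
  haveI : Fintype (Subgroup (st φ lam)) := Fintype.ofFinite _
  have h1 : wtot p O (blkOf O (ix lam ψ₀)) = _ :=
    hW p V H φ hV (fun Q => (wq p O (blkOf O (ix lam ψ₀)) Q : ℚ)) (fun g Q => by
      have h2 : wq p O (blkOf O (ix lam ψ₀)) (conjSub g Q) = _ := wq_conj _ g Q
      exact_mod_cast h2)
  rw [h1, mul_left_comm]
  congr 1
  rw [finsum_eq_sum_of_fintype, Finset.mul_sum]
  have h3 : ∀ R : Subgroup H, (Nat.card (st φ lam) : ℚ) * (if IsPGroup p R then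
      (Nat.card (Subgroup.normalizer (R : Set H)) : ℚ) *
        (wq p O (blkOf O (ix lam ψ₀)) (R.map (inr : H →* V ⋊[φ] H)) : ℚ) else 0) =
      ∑ g : H, if IsPGroup p R then YW p O φ lam B (sg (conjSub g R)) else 0 := by
    intro R
    by_cases hR : IsPGroup p R
    · simp only [if_pos hR]
      exact loc_R hpO hV hB h0 hR
    · simp only [if_neg hR, mul_zero, Finset.sum_const_zero]
  rw [Finset.sum_congr rfl fun R _ => h3 R, Finset.sum_comm,
    Finset.sum_congr rfl fun g _ => sum_conj_sub g (fun R => YW p O φ lam B (sg R)),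
    Finset.sum_const, Finset.card_univ, nsmul_eq_mul, ← Nat.card_eq_fintype_card]
  congr 1
  unfold wtot
  rw [finsum_eq_sum_of_fintype]
  have hinj : Function.Injective (fun R' : Subgroup (st φ lam) => R'.map (st φ lam).subtype) :=
    Subgroup.map_injective Subtype.val_injective
  have h4 : ∑ R' : Subgroup (st φ lam), (if IsPGroup p R' then
      (Nat.card (Subgroup.normalizer (R' : Set (st φ lam))) : ℚ) * wq p O B R' else 0) =
      ∑ R ∈ Finset.univ.image (fun R' : Subgroup (st φ lam) => R'.map (st φ lam).subtype),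
        if IsPGroup p R then YW p O φ lam B (sg R) else 0 := by
    rw [Finset.sum_image fun a _ b _ h => hinj h]
    refine Finset.sum_congr rfl fun R' _ => ?_
    have h5 : IsPGroup p (R'.map (st φ lam).subtype) ↔ IsPGroup p R' := by
      constructor
      · intro h
        exact h.of_equiv (R'.equivMapOfInjective _ Subtype.val_injective).symm
      · intro h
        exact h.map _
    by_cases h : IsPGroup p R'
    · rw [if_pos h, if_pos (h5.2 h), YW_sub]
    · rw [if_neg h, if_neg (fun h6 => h (h5.1 h6))]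
  rw [h4]
  symm
  refine Finset.sum_subset (Finset.subset_univ _) fun R _ hR => ?_
  by_cases hp' : IsPGroup p R
  · rw [if_pos hp']
    refine YW_not fun hle => hR ?_
    exact Finset.mem_image.2 ⟨R.subgroupOf (st φ lam), Finset.mem_univ _,
      Subgroup.map_subgroupOf_eq_of_le hle⟩
  · rw [if_neg hp']

end tot

end Pool.Agent.P8H58.DL
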